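import Mathlib

set_option linter.unusedSectionVars false

namespace Pool.Agent.Lib.MP_1ece31_lc

open Module LieAlgebra Filter

attribute [local instance 100] LieRing.ofAssociativeRing

variable {L S : Type*} [LieRing L] [LieAlgebra ℝ L] [FiniteDimensional ℝ L]
  [LieRing S] [LieAlgebra ℝ S] [FiniteDimensional ℝ S]

lemma killing_quot [HasCentralRadical ℝ L] (π : L →ₗ⁅ℝ⁆ S) (hs : Function.Surjective π)
    (hk : ∀ x, π x = 0 ↔ ∀ y : L, ⁅y, x⁆ = 0) : IsKilling ℝ S := by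
  have : HasTrivialRadical ℝ S := by
    rw [hasTrivialRadical_iff_no_abelian_ideals]
    intro I hI
    have h1 : ⁅I.comap π, I.comap π⁆ ≤ center ℝ L := by
      rw [LieSubmodule.lie_le_iff]
      intro x hx y hy
      rw [LieModule.mem_maxTrivSubmodule, ← hk, LieHom.map_lie]
      exact congrArg Subtype.val (hI.trivial (⟨π x, hx⟩ : I) (⟨π y, hy⟩ : I))
    have h2 : IsSolvable (I.comap π) := IsSolvable.mk (R := ℝ) (k := 2) (by
      rw [LieIdeal.derivedSeries_eq_bot_iff, derivedSeriesOfIdeal_succ, derivedSeriesOfIdeal_succ,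
        derivedSeriesOfIdeal_zero, LieSubmodule.lie_eq_bot_iff]
      exact fun x _ y hy => (LieModule.mem_maxTrivSubmodule _ _ _ _).1 (h1 hy) x)
    rw [LieIdeal.solvable_iff_le_radical, radical_eq_center] at h2
    rw [eq_bot_iff]
    intro z hz
    obtain ⟨x, rfl⟩ := hs z
    exact (hk x).2 ((LieModule.mem_maxTrivSubmodule _ _ _ _).1 (h2 hz))
  infer_instance

lemma whitehead [IsKilling ℝ S] (π : L →ₗ⁅ℝ⁆ S) (hs : Function.Surjective π)
    (hk : ∀ x, π x = 0 ↔ ∀ y : L, ⁅y, x⁆ = 0) (μ : Dual ℝ L) :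
    ∃ x : L, ∀ a : L, (∀ b : L, ⁅b, ⁅x, a⁆⁆ = 0) → ∀ b : L, μ ⁅a, b⁆ = 0 := by
  obtain ⟨σ, hσ⟩ := π.toLinearMap.exists_rightInverse_of_surjective (LinearMap.range_eq_top.2 hs)
  have h1 : ∀ a b : L, ⁅b, σ (π a)⁆ = ⁅b, a⁆ := fun a b => by
    rw [← sub_eq_zero, ← lie_sub]
    refine (hk _).1 ?_ b
    rw [map_sub, sub_eq_zero]
    exact LinearMap.congr_fun hσ (π a)
  let B : S →ₗ[ℝ] Dual ℝ S := ((ad ℝ L).toLinearMap.compr₂ μ).compl₁₂ σ σ
  have hB : ∀ a b, B (π a) (π b) = μ ⁅a, b⁆ := fun a b => by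
    change μ ⁅σ (π a), σ (π b)⁆ = _
    rw [h1, ← lie_skew, h1, lie_skew]
  let e := (killingForm ℝ S).toDual (IsKilling.killingForm_nondegenerate ℝ S)
  have he : ∀ f b, killingForm ℝ S (e.symm f) b = f b := fun f b =>
    LinearMap.BilinForm.apply_toDual_symm_apply f b
  let D : LieDerivation ℝ S S := ⟨e.symm.toLinearMap ∘ₗ B, fun a b => by
    apply e.injective
    ext c
    obtain ⟨a, rfl⟩ := hs a
    obtain ⟨b, rfl⟩ := hs b
    obtain ⟨c, rfl⟩ := hs c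
    have i : ∀ x y z : S, killingForm ℝ S ⁅x, y⁆ z = -killingForm ℝ S y ⁅x, z⁆ := fun x y z =>
      LieModule.traceForm_apply_lie_apply' ℝ S S x y z
    simp only [e, LinearMap.BilinForm.toDual_def, map_sub, LinearMap.sub_apply, i,
      LinearMap.comp_apply, LinearEquiv.coe_coe]
    simp only [e] at he
    simp only [he, ← LieHom.map_lie, hB, lie_lie, map_sub]
    ring⟩
  obtain ⟨x, hx⟩ := LieDerivation.IsKilling.exists_eq_ad D
  obtain ⟨x, rfl⟩ := hs x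
  refine ⟨x, fun a ha b => ?_⟩
  have h2 : D (π a) = 0 := by
    rw [← hx, LieDerivation.ad_apply_apply, ← LieHom.map_lie, (hk _).2 ha]
  rw [← hB, ← he]
  change killingForm ℝ S (D (π a)) _ = 0
  simp [h2]

lemma cartan_quot [IsKilling ℝ S] (π : L →ₗ⁅ℝ⁆ S) (hs : Function.Surjective π)
    (hk : ∀ x, π x = 0 ↔ ∀ y : L, ⁅y, x⁆ = 0) (H : LieSubalgebra ℝ L) [H.IsCartanSubalgebra]
    {x y : L} (hx : x ∈ H) (hy : y ∈ H) (b : L) : ⁅b, ⁅x, y⁆⁆ = 0 := by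
  have hn : ∀ z, (∀ y ∈ H, ⁅z, y⁆ ∈ H) → z ∈ H := fun z hz => by
    rw [← LieSubalgebra.IsCartanSubalgebra.self_normalizing (H := H)]
    exact (H.mem_normalizer_iff z).2 hz
  have : (π.comp H.incl).range.IsCartanSubalgebra := by
    refine ⟨LieHom.isNilpotent_range _, le_antisymm (fun z hz => ?_) (LieSubalgebra.le_normalizer _)⟩
    obtain ⟨z, rfl⟩ := hs z
    refine ⟨⟨z, hn z fun y hy => ?_⟩, rfl⟩
    obtain ⟨w, hw⟩ := (LieSubalgebra.mem_normalizer_iff _ _).1 hz (π y) ⟨⟨y, hy⟩, rfl⟩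
    have h1 : π (⁅z, y⁆ - w) = 0 := by
      rw [map_sub, LieHom.map_lie, ← hw]
      simp
    have h2 := hn _ fun u _ => by rw [← lie_skew, (hk _).1 h1 u, neg_zero]; exact H.zero_mem
    simpa using H.add_mem h2 w.2
  refine (hk _).1 ?_ b
  rw [LieHom.map_lie]
  exact congrArg Subtype.val (trivial_lie_zero (π.comp H.incl).range (π.comp H.incl).range
    ⟨π x, ⟨x, hx⟩, rfl⟩ ⟨π y, ⟨y, hy⟩, rfl⟩)

lemma exists_reg (H : LieSubalgebra ℝ L) [H.IsCartanSubalgebra] :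
    ∃ x ∈ H, ∀ y : L, ∃ u : L, ∃ h ∈ H, y = ⁅u, x⁆ + h := by
  have hz := zeroRootSubalgebra_eq_of_is_cartan ℝ L H
  have hm : ∀ z, z ∈ H ↔ ∀ y ∈ H, z ∈ LieSubalgebra.engel ℝ y := fun z => by
    conv_lhs => rw [← hz, mem_zeroRootSubalgebra]
    simp only [LieSubalgebra.mem_engel_iff, Subtype.forall]
    rfl
  obtain ⟨E, hE⟩ : ∃ E : {LieSubalgebra.engel ℝ x | x ∈ H}, IsMin E := by
    have : Nonempty {LieSubalgebra.engel ℝ x | x ∈ H} := ⟨⟨_, 0, H.zero_mem, rfl⟩⟩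
    obtain ⟨E, hE⟩ := exists_minimalFor_of_wellFoundedLT (fun _ => True)
      (fun E : {LieSubalgebra.engel ℝ x | x ∈ H} => E.1.toSubmodule) ⟨this.some, trivial⟩
    exact ⟨E, fun F hF => hE.2 trivial hF⟩
  have hb := engel_isBot_of_isMin (K := ℝ)
    (Cardinal.natCast_le_aleph0.trans (Cardinal.infinite_iff.mp inferInstance)) H E
    (by obtain ⟨_, x, hx, rfl⟩ := E; exact fun z hz => (hm z).1 hz x hx) hE
  obtain ⟨_, x, hx, rfl⟩ := E
  refine ⟨x, hx, fun y => ?_⟩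
  obtain ⟨n, hn, h1⟩ := ((ad ℝ L x).eventually_codisjoint_ker_pow_range_pow.and
    (eventually_ge_atTop 1)).exists
  obtain ⟨a, ha, _, ⟨b, rfl⟩, rfl⟩ := Submodule.mem_sup.1 (hn.eq_top ▸ Submodule.mem_top : y ∈ _)
  obtain ⟨n, rfl⟩ := Nat.exists_eq_add_of_le h1
  refine ⟨-((ad ℝ L x) ^ n) b, a, (hm a).2 fun y hy => hb ⟨_, y, hy, rfl⟩ ?_, ?_⟩
  · exact (LieSubalgebra.mem_engel_iff _ _ _).2 ⟨_, ha⟩
  · rw [neg_lie, lie_skew, add_comm, pow_add]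
    rfl

lemma red_alg [HasCentralRadical ℝ L] (H : LieSubalgebra ℝ L) [H.IsCartanSubalgebra] :
    (∀ μ : Dual ℝ L, ∃ x : L, ∀ a : L, (∀ b : L, ⁅b, ⁅x, a⁆⁆ = 0) → ∀ b : L, μ ⁅a, b⁆ = 0) ∧
      ∀ x ∈ H, ∀ y ∈ H, ∀ b : L, ⁅b, ⁅x, y⁆⁆ = 0 := by
  let π := (ad ℝ L).rangeRestrict
  have hs : Function.Surjective π := (ad ℝ L).surjective_rangeRestrict
  have hk : ∀ x, π x = 0 ↔ ∀ y : L, ⁅y, x⁆ = 0 := fun x =>
    ⟨fun h y => by
      rw [← lie_skew, neg_eq_zero]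
      exact LinearMap.congr_fun (congrArg Subtype.val h) y,
    fun h => Subtype.ext (LinearMap.ext fun y => by
      change ⁅x, y⁆ = 0
      rw [← lie_skew, h, neg_zero])⟩
  have := killing_quot π hs hk
  exact ⟨whitehead π hs hk, fun x hx y hy => cartan_quot π hs hk H hx hy⟩

end Pool.Agent.Lib.MP_1ece31_lc
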