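import Pool.Agent.Lib.MP_1ece31_lc.BarRank

set_option linter.unusedSectionVars false

namespace Pool.Agent.Lib.MP_1ece31_lc

open Filter Set Topology Module

section alg

variable {V S N : Type*} [AddCommGroup V] [Module ℝ V] [FiniteDimensional ℝ V]
  [AddCommGroup S] [Module ℝ S] [FiniteDimensional ℝ S]
  [AddCommGroup N] [Module ℝ N]

lemma rank_null (f : V →ₗ[ℝ] N) (p : Submodule ℝ V) :
    finrank ℝ (p.map f) + finrank ℝ (p ⊓ f.ker : Submodule ℝ V) = finrank ℝ p := by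
  have := (f.domRestrict p).finrank_range_add_finrank_ker
  rwa [LinearMap.range_domRestrict, LinearMap.ker_domRestrict,
    ← Submodule.finrank_map_subtype_eq, Submodule.map_comap_subtype] at this

lemma iso_bound (Ω : V →ₗ[ℝ] V →ₗ[ℝ] ℝ) (hΩ : ∀ v w, Ω v w = -Ω w v) (σ : S →ₗ[ℝ] V)
    (hσ : ∀ s t, Ω (σ s) (σ t) = 0) :
    2 * finrank ℝ S + finrank ℝ Ω.ker ≤ 2 * finrank ℝ (Ω ∘ₗ σ).ker + finrank ℝ V := by
  have e1 := (Ω ∘ₗ σ).finrank_range_add_finrank_ker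
  have e2 := rank_null Ω (σ.range ⊔ Ω.ker)
  have e3 := Subspace.finrank_add_finrank_dualAnnihilator_eq (σ.range ⊔ Ω.ker)
  have e4 : finrank ℝ (Ω ∘ₗ σ).range ≤ finrank ℝ (σ.range ⊔ Ω.ker).dualAnnihilator := by
    refine Submodule.finrank_mono ?_
    rintro _ ⟨s, rfl⟩
    rw [Submodule.mem_dualAnnihilator]
    intro v hv
    obtain ⟨_, ⟨t, rfl⟩, b, hb, rfl⟩ := Submodule.mem_sup.1 hv
    simp [hσ, hΩ (σ s) b, LinearMap.mem_ker.1 hb]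
  have e5 : finrank ℝ (Ω ∘ₗ σ).range ≤ finrank ℝ ((σ.range ⊔ Ω.ker).map Ω) := by
    refine Submodule.finrank_mono ?_
    rintro _ ⟨s, rfl⟩
    exact ⟨σ s, Submodule.mem_sup_left ⟨s, rfl⟩, rfl⟩
  rw [inf_eq_right.2 le_sup_right] at e2
  omega

lemma count0 (ω : V →ₗ[ℝ] V →ₗ[ℝ] ℝ) (hω : ∀ v w, ω v w = -ω w v) (μ : S →ₗ[ℝ] V →ₗ[ℝ] ℝ)
    (a a' : S →ₗ[ℝ] V) (ha : ∀ v w, μ v (a w) - μ w (a v) + ω (a v) (a w) = 0)
    (ha' : ∀ v w, μ v (a' w) - μ w (a' v) + ω (a' v) (a' w) = 0) (K : Submodule ℝ S)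
    (hK : ∀ w, μ w = 0 → ω (a w) = 0 → ω (a' w) = 0 → w ∈ K) (Z : Submodule ℝ V)
    (hZ : ∀ z ∈ Z, ω z = 0 ∧ ∀ w, μ w z = 0) :
    2 * finrank ℝ S + 2 * finrank ℝ Z + finrank ℝ ω.ker ≤ 2 * finrank ℝ K + 3 * finrank ℝ V := by
  let M : S × V →ₗ[ℝ] V →ₗ[ℝ] ℝ := μ ∘ₗ LinearMap.fst _ _ _ - ω ∘ₗ LinearMap.snd _ _ _
  have hM : ∀ p : M.ker, μ p.1.1 = ω p.1.2 := fun p => sub_eq_zero.1 (LinearMap.mem_ker.1 p.2)
  have e1 := M.finrank_range_add_finrank_ker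
  have e2 := Subspace.finrank_add_finrank_dualAnnihilator_eq Z
  have e3 : finrank ℝ M.range ≤ finrank ℝ Z.dualAnnihilator := by
    refine Submodule.finrank_mono ?_
    rintro _ ⟨s, rfl⟩
    rw [Submodule.mem_dualAnnihilator]
    intro v hv
    simp [M, hω s.2 v, hZ v hv]
  let p1 := LinearMap.fst ℝ V (V × V)
  let p2 := LinearMap.fst ℝ V V ∘ₗ LinearMap.snd ℝ V (V × V)
  let p3 := LinearMap.snd ℝ V V ∘ₗ LinearMap.snd ℝ V (V × V)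
  let Ω := (-2 : ℝ) • ω.compl₁₂ p1 p1 + ω.compl₁₂ p2 p2 + ω.compl₁₂ p3 p3
  have hΩ : ∀ x y, Ω x y = -2 * ω x.1 y.1 + ω x.2.1 y.2.1 + ω x.2.2 y.2.2 := fun x y => by
    simp [Ω, p1, p2, p3]
  let σ0 : S × V →ₗ[ℝ] V × V × V := (LinearMap.snd _ _ _).prod
    ((LinearMap.snd _ _ _ + a ∘ₗ LinearMap.fst _ _ _).prod
      (LinearMap.snd _ _ _ + a' ∘ₗ LinearMap.fst _ _ _))
  have hσ : ∀ p : M.ker, (σ0 ∘ₗ M.ker.subtype) p = (p.1.2, p.1.2 + a p.1.1, p.1.2 + a' p.1.1) :=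
    fun p => rfl
  have e4 := iso_bound Ω (fun v w => by rw [hΩ, hΩ, hω v.1, hω v.2.1, hω v.2.2]; ring)
    (σ0 ∘ₗ M.ker.subtype) (fun s t => by
      have h1 := ha s.1.1 t.1.1
      have h2 := ha' s.1.1 t.1.1
      rw [hM, hM, hω t.1.2] at h1 h2
      simp only [hΩ, hσ, map_add, LinearMap.add_apply]
      linarith)
  have e5 : finrank ℝ (ω.ker × ω.ker × ω.ker) ≤ finrank ℝ Ω.ker := by
    refine LinearMap.finrank_le_finrank_of_injective (f := LinearMap.codRestrict Ω.ker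
      (ω.ker.subtype.prodMap (ω.ker.subtype.prodMap ω.ker.subtype)) fun x => ?_) ?_
    · refine LinearMap.ext fun y => ?_
      simp [hΩ, LinearMap.mem_ker.1 x.1.2, LinearMap.mem_ker.1 x.2.1.2,
        LinearMap.mem_ker.1 x.2.2.2]
    · intro x y h
      simpa [Prod.ext_iff] using congrArg Subtype.val h
  have hk : ∀ p : (Ω ∘ₗ σ0 ∘ₗ M.ker.subtype).ker, p.1.1.1 ∈ K ∧ p.1.1.2 ∈ ω.ker := by
    intro p
    have h := fun y => LinearMap.congr_fun (LinearMap.mem_ker.1 p.2) y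
    simp only [LinearMap.comp_apply (f := Ω), hΩ, hσ, LinearMap.zero_apply] at h
    have h1 : ω p.1.1.2 = 0 := by ext y; simpa using h (y, 0, 0)
    refine ⟨hK _ (by rw [hM, h1]) ?_ ?_, h1⟩
    · ext y; simpa [h1] using h (0, y, 0)
    · ext y; simpa [h1] using h (0, 0, y)
  have e6 : finrank ℝ (Ω ∘ₗ σ0 ∘ₗ M.ker.subtype).ker ≤ finrank ℝ (K × ω.ker) := by
    refine LinearMap.finrank_le_finrank_of_injective (f :=
      ((LinearMap.fst _ _ _ ∘ₗ M.ker.subtype ∘ₗ Submodule.subtype _).codRestrict K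
        fun p => (hk p).1).prod
      ((LinearMap.snd _ _ _ ∘ₗ M.ker.subtype ∘ₗ Submodule.subtype _).codRestrict ω.ker
        fun p => (hk p).2)) ?_
    intro x y h
    exact Subtype.ext (Subtype.ext (Prod.ext (congrArg (fun z => z.1.1) h)
      (congrArg (fun z => z.2.1) h)))
  simp only [finrank_prod] at e1 e4 e5 e6
  omega

end alg

variable {E Y : Type*} [NormedAddCommGroup E] [NormedSpace ℝ E] [FiniteDimensional ℝ E]
  [NormedAddCommGroup Y] [NormedSpace ℝ Y] [FiniteDimensional ℝ Y]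

/-- vectors of h orthogonal to N -/
def orth (h N : Submodule ℝ E) (ω : E →L[ℝ] E →L[ℝ] ℝ) : Submodule ℝ E where
  carrier := {v | v ∈ h ∧ ∀ w ∈ N, ω v w = 0}
  add_mem' := fun ha hb => ⟨h.add_mem ha.1 hb.1, fun w hw => by simp [ha.2 w hw, hb.2 w hw]⟩
  zero_mem' := ⟨h.zero_mem, by simp⟩
  smul_mem' := fun c v hv => ⟨h.smul_mem c hv.1, fun w hw => by simp [hv.2 w hw]⟩

lemma mem_orth {h N : Submodule ℝ E} {ω : E →L[ℝ] E →L[ℝ] ℝ} {v : E} :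
    v ∈ orth h N ω ↔ v ∈ h ∧ ∀ w ∈ N, ω v w = 0 := Iff.rfl

lemma finrank_sub {h S : Submodule ℝ E} {T : Submodule ℝ h} (hS : S ≤ h)
    (e : ∀ v : h, v ∈ T ↔ v.1 ∈ S) : finrank ℝ T = finrank ℝ S := by
  suffices T.map h.subtype = S by rw [← this, Submodule.finrank_map_subtype_eq]
  ext v
  constructor
  · rintro ⟨w, hw, rfl⟩
    exact (e w).1 hw
  · exact fun hv => ⟨⟨v, hS hv⟩, (e _).2 hv, rfl⟩

lemma count (h : Submodule ℝ E) (ω : E →L[ℝ] E →L[ℝ] ℝ) (hω : ∀ v w, ω v w = -ω w v)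
    (μ : Y →L[ℝ] E →L[ℝ] ℝ) (a a' : Y →L[ℝ] E) (h1 : ∀ v, a v ∈ h) (h1' : ∀ v, a' v ∈ h)
    (ha : ∀ v w, μ v (a w) - μ w (a v) + ω (a v) (a w) = 0)
    (ha' : ∀ v w, μ v (a' w) - μ w (a' v) + ω (a' v) (a' w) = 0) (K : Submodule ℝ Y)
    (hK : ∀ w, (∀ v ∈ h, μ w v = 0) → a w ∈ orth h h ω → a' w ∈ orth h h ω → w ∈ K)
    (Z : Submodule ℝ E) (hZ : Z ≤ orth h h ω) (hZ' : ∀ z ∈ Z, ∀ w, μ w z = 0) :
    2 * finrank ℝ Y + 2 * finrank ℝ Z + finrank ℝ (orth h h ω) ≤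
      2 * finrank ℝ K + 3 * finrank ℝ h := by
  have hk : ∀ v : h, ω.toLinearMap₁₂.compl₁₂ h.subtype h.subtype v = 0 ↔ v.1 ∈ orth h h ω :=
    fun v => ⟨fun e => ⟨v.2, fun w hw => LinearMap.congr_fun e ⟨w, hw⟩⟩,
      fun e => LinearMap.ext fun w => e.2 w.1 w.2⟩
  have := count0 (ω.toLinearMap₁₂.compl₁₂ h.subtype h.subtype) (fun v w => hω v w)
    (μ.toLinearMap₁₂.compl₂ h.subtype) (a.toLinearMap.codRestrict h h1)
    (a'.toLinearMap.codRestrict h h1') ha ha' K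
    (fun w e1 e2 e3 => hK w (fun v hv => LinearMap.congr_fun e1 ⟨v, hv⟩) ((hk _).1 e2)
      ((hk _).1 e3)) (Z.comap h.subtype) fun z hz => ⟨(hk z).2 (hZ hz), hZ' _ hz⟩
  rwa [finrank_sub (S := Z) (fun z hz => (hZ hz).1) fun _ => Iff.rfl,
    finrank_sub (S := orth h h ω) (fun z hz => hz.1) hk] at this

/-- Vinberg inequality -/
lemma vinberg {h N : Submodule ℝ E} {ω ω' : E →L[ℝ] E →L[ℝ] ℝ} (hω : ∀ v w, ω v w = -ω w v)
    (hN : N ≤ orth h h ω) {R : ℕ}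
    (hR : ∀ ε : ℝ, finrank ℝ h ≤ R + finrank ℝ (orth h h (ω + ε • ω'))) :
    finrank ℝ N + finrank ℝ h ≤ R + finrank ℝ (orth h h ω) + finrank ℝ (orth N N ω') := by
  let r := fun (P : Submodule ℝ E) (f : E →L[ℝ] E →L[ℝ] ℝ) =>
    ((ContinuousLinearMap.compL ℝ P E ℝ).flip P.subtypeL).comp (f.comp h.subtypeL)
  have hr : ∀ P f v, r P f v = 0 ↔ ∀ w ∈ P, f v w = 0 := fun P f v =>
    ⟨fun e w hw => congrArg (fun L => L ⟨w, hw⟩) e, fun e => by ext w; exact e w.1 w.2⟩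
  let L : ℝ → h →L[ℝ] (h →L[ℝ] ℝ) × (N →L[ℝ] ℝ) := fun ε =>
    (r h ω).prod (r N ω') + ε • (r h ω').prod 0
  have hL : ∀ ε v, v ∈ (L ε).ker ↔ (∀ w ∈ h, (ω + ε • ω') v w = 0) ∧ ∀ w ∈ N, ω' v w = 0 := by
    intro ε v
    rw [← hr, ← hr]
    simp [L, r]
  have hc : ContinuousAt L 0 := by fun_prop
  obtain ⟨ε, h1, h2⟩ := (((ev_rank (X := h) (F := (h →L[ℝ] ℝ) × (N →L[ℝ] ℝ)) (L := L) hc).filter_mono (nhdsWithin_le_nhds (s := {0}ᶜ))).and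
    self_mem_nhdsWithin).exists
  rw [finrank_sub (S := orth h h (ω + ε • ω')) (fun z hz => hz.1),
    finrank_sub (S := orth h h ω ⊓ orth h N ω') (fun z hz => hz.1.1)] at h1
  · have e1 := Submodule.finrank_sup_add_finrank_inf_eq (orth h h ω ⊓ orth h N ω') N
    have e2 : finrank ℝ ((orth h h ω ⊓ orth h N ω') ⊔ N : Submodule ℝ E) ≤
      finrank ℝ (orth h h ω) := Submodule.finrank_mono (sup_le inf_le_left hN)
    have e3 : finrank ℝ ((orth h h ω ⊓ orth h N ω') ⊓ N : Submodule ℝ E) ≤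
      finrank ℝ (orth N N ω') := Submodule.finrank_mono fun v hv => ⟨hv.2, hv.1.2.2⟩
    have := hR ε
    omega
  · intro v
    simp [hL, mem_orth]
  · intro v
    rw [hL, mem_orth]
    refine ⟨fun e => ⟨v.2, e.1⟩, fun e => ⟨e.2, fun w hw => ?_⟩⟩
    have := e.2 w (hN hw).1
    simpa [hω v w, (hN hw).2 v v.2, show ε ≠ 0 from h2] using this

end Pool.Agent.Lib.MP_1ece31_lc
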