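import Pool.Agent.Lib.MP_1ece31_lc.BarCalc
import Pool.Agent.Lib.MP_1ece31_lc.BarLin

set_option linter.unusedSectionVars false

namespace Pool.Agent.Lib.MP_1ece31_lc

open Filter Set Topology Module
open scoped Manifold ContDiff

variable {E : Type*} [NormedAddCommGroup E] [NormedSpace ℝ E]
  {G : Type*} [Group G] [TopologicalSpace G] [ChartedSpace E G]
  {X : Type*} [NormedAddCommGroup X] [NormedSpace ℝ X]
  {Y : Type*} [NormedAddCommGroup Y] [NormedSpace ℝ Y]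
  {L1 L2 L3 : Type*} [NormedAddCommGroup L1] [NormedSpace ℝ L1]
  [NormedAddCommGroup L2] [NormedSpace ℝ L2] [NormedAddCommGroup L3] [NormedSpace ℝ L3]

/-- g normalises h -/
def Nm (h : Submodule ℝ E) (g : G) : Prop := ∀ v, Ad E g v ∈ h ↔ v ∈ h

variable (G) in
/-- the skew form of a functional -/
noncomputable def om (μ : E →L[ℝ] ℝ) : E →L[ℝ] E →L[ℝ] ℝ :=
  (ContinuousLinearMap.compL ℝ E E ℝ μ).comp (ad E G)

@[simp] lemma om_apply (μ : E →L[ℝ] ℝ) (v w : E) : om G μ v w = μ (ad E G v w) := rfl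

/-- the data of the induction -/
structure Dat (k : ℕ) (h Z : Submodule ℝ E) (D : Set X) (A A' : X → G) (ℓ : X → L1 × L2 × L3) :
    Prop where
  op : IsOpen D
  sA : ∀ x ∈ D, Sm E k A x
  sA' : ∀ x ∈ D, Sm E k A' x
  nA : ∀ x ∈ D, Nm h (A x)
  nA' : ∀ x ∈ D, Nm h (A' x)
  tA : ∀ x ∈ D, ∀ v, th E A x v ∈ Z
  tA' : ∀ x ∈ D, ∀ v, th E A' x v ∈ Z
  dl : ∀ x ∈ D, DifferentiableAt ℝ ℓ x
  tp : ∀ x ∈ D, ∀ y ∈ D, ∀ z ∈ D, A x * (A y)⁻¹ * (A' y * (A' z)⁻¹) = 1 →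
    (ℓ x).1 = (ℓ z).1 ∧ (ℓ x).2.1 = (ℓ y).2.1 ∧ (ℓ y).2.2 = (ℓ z).2.2

variable [LieGroup 𝓘(ℝ, E) ∞ G] {h Z : Submodule ℝ E} {D : Set X} {A A' : X → G}
  {ℓ : X → L1 × L2 × L3}

lemma Nm.inv {g : G} (hg : Nm h g) : Nm h g⁻¹ := fun v => by rw [← hg, Ad_Ad_inv]

lemma Nm.mul {g g' : G} (hg : Nm h g) (hg' : Nm h g') : Nm h (g * g') := fun v => by
  rw [Ad_mul, ContinuousLinearMap.comp_apply, hg, hg']

lemma om_anti (μ : E →L[ℝ] ℝ) (v w : E) : om G μ v w = -om G μ w v := by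
  rw [om_apply, ad_anti]
  simp

lemma jacobi (u v w : E) :
    ad E G u (ad E G v w) = ad E G (ad E G u v) w + ad E G v (ad E G u w) := by
  have h0 := hasFD_Ad (E := E) (A := ci G) (x := o E G) sm_ci_o
  have h1 : ∀ v, HasFDerivAt (fun y => Ad E (ci G y) v) ((ad E G).flip v) (o E G) := fun v => by
    refine ((ContinuousLinearMap.apply ℝ E v).hasFDerivAt.comp _ h0).congr_fderiv ?_
    ext y
    simp [th_ci]
  have h2 := ((ad E G).hasFDerivAt.comp _ (h1 v)).clm_apply (h1 w)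
  have h3 := h1 (ad E G v w)
  simp only [Ad_ad] at h3
  have := congrArg (fun L => L u) (h3.unique h2)
  simpa [add_comm] using this

lemma Dat.comp {k l : ℕ} (hd : Dat k h Z D A A' ℓ) (hl : 1 ≤ l) (hk : l ≤ k) {D' : Set Y}
    (hD : IsOpen D') {f : Y → X} (h1 : ∀ y ∈ D', f y ∈ D) (h2 : ∀ y ∈ D', ContDiffAt ℝ l f y) :
    Dat l h Z D' (fun y => A (f y)) (fun y => A' (f y)) (fun y => ℓ (f y)) := by
  have hf : ∀ y ∈ D', DifferentiableAt ℝ f y := fun y hy =>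
    (h2 y hy).differentiableAt (by exact_mod_cast (by omega : l ≠ 0))
  exact ⟨hD, fun y hy => ((hd.sA _ (h1 y hy)).of_le hk).comp (h2 y hy),
    fun y hy => ((hd.sA' _ (h1 y hy)).of_le hk).comp (h2 y hy), fun y hy => hd.nA _ (h1 y hy),
    fun y hy => hd.nA' _ (h1 y hy),
    fun y hy v => by
      rw [th_comp ((hd.sA _ (h1 y hy)).of_le (hl.trans hk)) (hf y hy)]
      exact hd.tA _ (h1 y hy) _,
    fun y hy v => by
      rw [th_comp ((hd.sA' _ (h1 y hy)).of_le (hl.trans hk)) (hf y hy)]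
      exact hd.tA' _ (h1 y hy) _,
    fun y hy => (hd.dl _ (h1 y hy)).comp y (hf y hy),
    fun x hx y hy z hz => hd.tp _ (h1 x hx) _ (h1 y hy) _ (h1 z hz)⟩

lemma th_div {A B : X → G} {f g : Y →L[ℝ] X} {y : Y} (hA : Sm E 1 A (f y)) (hB : Sm E 1 B (g y))
    (v : Y) : th E (fun z => A (f z) * (B (g z))⁻¹) y v =
      th E A (f y) (f v) - Ad E (A (f y) * (B (g y))⁻¹) (th E B (g y) (g v)) := by
  have h1 := hA.comp (f := f) f.contDiff.contDiffAt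
  have h2 := hB.comp (f := g) g.contDiff.contDiffAt
  rw [th_mul h1 h2.inv, th_inv h2, th_comp hA f.differentiableAt, th_comp hB g.differentiableAt,
    Ad_mul]
  simp [sub_eq_add_neg]

lemma base [FiniteDimensional ℝ E] [FiniteDimensional ℝ X] (hd : Dat 1 h h D A A' ℓ) {x0 : X}
    (hx : x0 ∈ D) (hi : Function.Injective (fderiv ℝ ℓ x0))
    (hW : ∀ w ∈ h, ∃ u v, th E A x0 u + th E A' x0 v = w) : finrank ℝ X ≤ finrank ℝ h := by
  let p1 := ContinuousLinearMap.fst ℝ X (X × X)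
  let p2 := (ContinuousLinearMap.fst ℝ X X).comp (ContinuousLinearMap.snd ℝ X (X × X))
  let p3 := (ContinuousLinearMap.snd ℝ X X).comp (ContinuousLinearMap.snd ℝ X (X × X))
  let B : X × X × X → G := fun p => A (p1 p) * (A (p2 p))⁻¹ * (A' (p2 p) * (A' (p3 p))⁻¹)
  have hc : ∀ {C : X → G} (f : (X × X × X) →L[ℝ] X) p, Sm E 1 C (f p) → Sm E 1 (fun q => C (f q)) p :=
    fun f p hC => hC.comp (f := f) f.contDiff.contDiffAt
  have hB : ∀ p ∈ D ×ˢ D ×ˢ D, Sm E 1 B p ∧ ∀ v, th E B p v =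
      th E A p.1 v.1 - Ad E (A p.1 * (A p.2.1)⁻¹) (th E A p.2.1 v.2.1) +
      Ad E (A p.1 * (A p.2.1)⁻¹)
        (th E A' p.2.1 v.2.1 - Ad E (A' p.2.1 * (A' p.2.2)⁻¹) (th E A' p.2.2 v.2.2)) := by
    rintro p ⟨a, b, c⟩
    have s1 := (hc p1 p (hd.sA _ a)).mul (hc p2 p (hd.sA _ b)).inv
    have s2 := (hc p2 p (hd.sA' _ b)).mul (hc p3 p (hd.sA' _ c)).inv
    refine ⟨s1.mul s2, fun v => ?_⟩
    rw [th_mul s1 s2, add_apply, ContinuousLinearMap.comp_apply,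
      th_div (hd.sA _ a) (hd.sA _ b), th_div (hd.sA' _ b) (hd.sA' _ c)]
    rfl
  have hBh : ∀ p ∈ D ×ˢ D ×ˢ D, (th E B p).range ≤ h := by
    rintro p hp _ ⟨v, rfl⟩
    obtain ⟨a, b, c⟩ := hp
    have n1 := (hd.nA _ a).mul (hd.nA _ b).inv
    have n2 := (hd.nA' _ b).mul (hd.nA' _ c).inv
    rw [ContinuousLinearMap.coe_coe, (hB p ⟨a, b, c⟩).2]
    exact h.add_mem (h.sub_mem (hd.tA _ a _) ((n1 _).2 (hd.tA _ b _)))
      ((n1 _).2 (h.sub_mem (hd.tA' _ b _) ((n2 _).2 (hd.tA' _ c _))))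
  have h0 : (x0, x0, x0) ∈ D ×ˢ D ×ˢ D := ⟨hx, hx, hx⟩
  have hB0 : B (x0, x0, x0) = 1 := by simp [B, p1, p2, p3]
  have hD3 : ∀ᶠ p in 𝓝 (x0, x0, x0), p ∈ D ×ˢ D ×ˢ D ∧ B p ∈ (chartAt E (1 : G)).source :=
    (show ∀ᶠ p in 𝓝 (x0, x0, x0), p ∈ D ×ˢ D ×ˢ D from
      (hd.op.prod (hd.op.prod hd.op)).mem_nhds h0).and
      ((hB _ h0).1.ev_src (hB0 ▸ mem_chart_source _ _))
  have hr0 : (fderiv ℝ (fun p => ch E (B p)) (x0, x0, x0)).range = h := by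
    rw [← th_one hB0]
    refine le_antisymm (hBh _ h0) fun w hw => ?_
    obtain ⟨u, v, rfl⟩ := hW w hw
    exact ⟨(u, 0, -v), by simp [(hB _ h0).2]⟩
  obtain ⟨ι, hι0, hι⟩ := const_rank le_rfl ((hB _ h0).1.ch1 hB0) (hD3.mono fun p hp => by
    rw [hr0, fd_eq_Rt (hB p hp.1).1 hp.2, ContinuousLinearMap.toLinearMap_comp, LinearMap.range_comp]
    exact (Submodule.finrank_map_le _ _).trans (Submodule.finrank_mono (hBh p hp.1)))
  obtain ⟨s, inj, -⟩ := hι.self_of_nhds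
  have ht : Tendsto ι (𝓝 0) (𝓝 (x0, x0, x0)) := by simpa only [hι0] using s.continuousAt.tendsto
  have hev : ∀ᶠ y in 𝓝 0, (ℓ (p1 (ι y))).1 = (ℓ (p3 (ι y))).1 ∧
      (ℓ (p1 (ι y))).2.1 = (ℓ (p2 (ι y))).2.1 ∧ (ℓ (p2 (ι y))).2.2 = (ℓ (p3 (ι y))).2.2 := by
    filter_upwards [hι, ht.eventually hD3] with y h1 h2
    refine hd.tp _ h2.1.1 _ h2.1.2.1 _ h2.1.2.2 ?_
    have := congrArg (ci G) h1.2.2.1
    rwa [ci_ch h2.2, hB0, ci_ch (mem_chart_source _ _)] at this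
  have hf : ∀ f : (X × X × X) →L[ℝ] X, f (x0, x0, x0) = x0 → HasFDerivAt (fun y => ℓ (f (ι y)))
      ((fderiv ℝ ℓ x0).comp (f.comp (fderiv ℝ ι 0))) 0 := fun f e =>
    HasFDerivAt.comp 0 (g := ℓ) (by rw [hι0, e]; exact (hd.dl _ hx).hasFDerivAt)
      (f.hasFDerivAt.comp 0 (s.differentiableAt (by simp)).hasFDerivAt)
  have e1 := ((hf p3 rfl).fst.congr_of_eventuallyEq (hev.mono fun y h => h.1)).unique (hf p1 rfl).fst
  have e2 := ((hf p2 rfl).snd.fst.congr_of_eventuallyEq (hev.mono fun y h => h.2.1)).unique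
    (hf p1 rfl).snd.fst
  have e3 := ((hf p3 rfl).snd.snd.congr_of_eventuallyEq (hev.mono fun y h => h.2.2)).unique
    (hf p2 rfl).snd.snd
  have hj : Function.Injective ((p1.prod (p3 - (2 : ℝ) • p2)).comp (fderiv ℝ ι 0)) := by
    rw [injective_iff_map_eq_zero]
    intro v hv
    have f1 := congrArg (fun L => L v) e1
    have f2 := congrArg (fun L => L v) e2
    have f3 := congrArg (fun L => L v) e3
    apply inj
    rw [map_zero]
    generalize fderiv ℝ ι 0 = J at *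
    obtain ⟨a, b, c, hJ⟩ : ∃ a b c, J v = (a, b, c) := ⟨_, _, _, rfl⟩
    simp [hJ, p1, p2, p3, sub_eq_zero] at hv f1 f2 f3 ⊢
    obtain ⟨rfl, rfl⟩ := hv
    have : b = 0 := by
      apply hi
      simp [two_smul] at f1 f2 f3
      rw [map_zero]
      exact Prod.ext (by simpa [← two_smul ℝ] using f1) (Prod.ext f2 f3)
    simp [this]
  have e4 := LinearMap.finrank_le_finrank_of_injective
    (f := ((p1.prod (p3 - (2 : ℝ) • p2)).comp (fderiv ℝ ι 0)).toLinearMap) hj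
  have e5 := (fderiv ℝ (fun p => ch E (B p)) (x0, x0, x0)).toLinearMap.finrank_range_add_finrank_ker
  rw [hr0] at e5
  simp only [finrank_prod] at e4 e5
  omega

end Pool.Agent.Lib.MP_1ece31_lc
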