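import Pool.Agent.Lib.MP_1ece31_lc.BarCalc

namespace Pool.Agent.Lib.MP_1ece31_lc

open Filter Set Topology
open scoped Manifold ContDiff

variable {E : Type*} [NormedAddCommGroup E] [NormedSpace ℝ E]
  {G : Type*} [Group G] [TopologicalSpace G] [ChartedSpace E G] [LieGroup 𝓘(ℝ, E) ∞ G]

set_option backward.isDefEq.respectTransparency false in
lemma mfd_left {u : E} (hu : u ∈ (chartAt E (1 : G)).target) (v : E) :
    mfderiv 𝓘(ℝ, E) 𝓘(ℝ, E) (extChartAt 𝓘(ℝ, E) (1 : G)) (ci G u)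
      (mfderiv 𝓘(ℝ, E) 𝓘(ℝ, E) (fun b : G => ci G u * b) 1 v) = Lt G u v := by
  have hs : ci G u ∈ (chartAt E (1 : G)).source := (chartAt E (1 : G)).map_target hu
  have d1 : MDifferentiableAt 𝓘(ℝ, E) 𝓘(ℝ, E) (extChartAt 𝓘(ℝ, E) (1 : G)) (ci G u) :=
    mdifferentiableAt_extChartAt (by simpa using hs)
  have d2 : MDifferentiableAt 𝓘(ℝ, E) 𝓘(ℝ, E) (fun b : G => ci G u * b) 1 :=
    (contMDiff_mul_left (n := 1)).contMDiffAt.mdifferentiableAt (by simp)
  have d3 := mfderiv_comp_apply_of_eq (1 : G) d1 d2 (mul_one _) v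
  have d4 := d1.comp_of_eq (1 : G) d2 (mul_one _)
  rw [← d3, d4.mfderiv]
  simp [writtenInExtChartAt, Lt, mfld_simps]
  rfl

set_option backward.isDefEq.respectTransparency false in
lemma bracket_eq [CompleteSpace E] [LieGroup 𝓘(ℝ, E) (minSmoothness ℝ 3) G]
    (v w : GroupLieAlgebra 𝓘(ℝ, E) G) : ⁅v, w⁆ = ad E G v w := by
  obtain ⟨B, h1, -, h3⟩ := exists_B (E := E) (G := G)
  have key : ∀ v : GroupLieAlgebra 𝓘(ℝ, E) G,
      VectorField.mpullbackWithin 𝓘(ℝ, E) 𝓘(ℝ, E) (extChartAt 𝓘(ℝ, E) (1 : G)).symm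
        (mulInvariantVectorField v) (range 𝓘(ℝ, E)) =ᶠ[𝓝 (o E G)] fun u => Lt G u v := by
    intro v
    filter_upwards [ev_target (E := E) (G := G)] with u hu
    have hu' : u ∈ (extChartAt 𝓘(ℝ, E) (1 : G)).target := by simpa using hu
    rw [VectorField.mpullbackWithin_apply, ContinuousLinearMap.inverse_eq
      (mfderivWithin_extChartAt_symm_comp_mfderiv_extChartAt hu')
      (mfderiv_extChartAt_comp_mfderivWithin_extChartAt_symm hu')]
    exact mfd_left hu v
  have d : ∀ v : E, fderiv ℝ (fun u => Lt G u v) (o E G) = B.flip v := fun v =>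
    ((ContinuousLinearMap.apply ℝ E v).hasFDerivAt.comp _ h1).fderiv
  have ho : extChartAt 𝓘(ℝ, E) (1 : G) 1 = o E G := rfl
  have hL : Lt G (o E G) = ContinuousLinearMap.id ℝ E := by simp [Lt, fd_ci]
  rw [GroupLieAlgebra.bracket_def, ← VectorField.mlieBracketWithin_univ,
    VectorField.mlieBracketWithin_apply, mfderiv_extChartAt_self, ho]
  simp only [preimage_univ, univ_inter, modelWithCornersSelf_coe, range_id,
    VectorField.lieBracketWithin_univ] at key ⊢
  rw [((key v).lieBracket_vectorField (key w)).eq_of_nhds, VectorField.lieBracket, d, d, hL, h3]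
  simp
  rfl

end Pool.Agent.Lib.MP_1ece31_lc
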