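import Mathlib

set_option linter.unusedSectionVars false

namespace Pool.Agent.Lib.MP_1ece31_lc

open Filter Set Topology
open scoped Manifold ContDiff

noncomputable section

variable {E : Type*} [NormedAddCommGroup E] [NormedSpace ℝ E]
  {G : Type*} [Group G] [TopologicalSpace G] [ChartedSpace E G]
  {X : Type*} [NormedAddCommGroup X] [NormedSpace ℝ X]
  {Y : Type*} [NormedAddCommGroup Y] [NormedSpace ℝ Y]

variable (E) in
/-- smooth maps into the group -/
abbrev Sm (k : ℕ) (A : X → G) (x : X) : Prop := ContMDiffAt 𝓘(ℝ, X) 𝓘(ℝ, E) k A x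

variable (E) in
/-- chart at the identity -/
def ch (g : G) : E := chartAt E (1 : G) g

variable (G) in
/-- inverse chart -/
def ci (u : E) : G := (chartAt E (1 : G)).symm u

variable (E G) in
/-- image of the identity -/
def o : E := ch E (1 : G)

variable (E) in
/-- right Maurer-Cartan form -/
def th (A : X → G) (x : X) : X →L[ℝ] E := fderiv ℝ (fun y => ch E (A y * (A x)⁻¹)) x

variable (E) in
/-- adjoint action -/
def Ad (g : G) : E →L[ℝ] E := fderiv ℝ (fun v => ch E (g * ci G v * g⁻¹)) (o E G)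

variable (E G) in
/-- the bracket -/
def ad : E →L[ℝ] E →L[ℝ] E := fderiv ℝ (fun u : E => Ad E (ci G u)) (o E G)

variable (G) in
/-- right translation in the chart -/
def Rt (u : E) : E →L[ℝ] E := fderiv ℝ (fun v => ch E (ci G v * ci G u)) (o E G)

variable (G) in
/-- left translation in the chart -/
def Lt (u : E) : E →L[ℝ] E := fderiv ℝ (fun v => ch E (ci G u * ci G v)) (o E G)

@[simp] lemma ci_o : ci G (o E G) = 1 := (chartAt E (1 : G)).left_inv (mem_chart_source _ _)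

lemma ci_ch {g : G} (h : g ∈ (chartAt E (1 : G)).source) : ci G (ch E g) = g :=
  (chartAt E (1 : G)).left_inv h

lemma ev_target : ∀ᶠ u in 𝓝 (o E G), u ∈ (chartAt E (1 : G)).target :=
  (chartAt E (1 : G)).open_target.mem_nhds (mem_chart_target _ _)

lemma ev_ch_ci : ∀ᶠ u in 𝓝 (o E G), ch E (ci G u) = u :=
  (ev_target (G := G)).mono fun _ hu => (chartAt E (1 : G)).right_inv hu

lemma Sm.ev_src {k : ℕ} {A : X → G} {x : X} (hA : Sm E k A x)
    (h : A x ∈ (chartAt E (1 : G)).source) :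
    ∀ᶠ y in 𝓝 x, A y ∈ (chartAt E (1 : G)).source :=
  hA.continuousAt ((chartAt E (1 : G)).open_source.mem_nhds h)

lemma Sm.of_le {k l : ℕ} {A : X → G} {x : X} (hA : Sm E k A x) (h : l ≤ k) : Sm E l A x :=
  ContMDiffAt.of_le hA (by exact_mod_cast h)

lemma Sm.comp {k : ℕ} {A : X → G} {f : Y → X} {y : Y} (hA : Sm E k A (f y))
    (hf : ContDiffAt ℝ k f y) : Sm E k (fun z => A (f z)) y :=
  ContMDiffAt.comp y hA hf.contMDiffAt

lemma sm_const {k : ℕ} {g : G} {x : X} : Sm E k (fun _ : X => g) x := contMDiffAt_const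

variable [LieGroup 𝓘(ℝ, E) ∞ G]

lemma Sm.ev {k : ℕ} {A : X → G} {x : X} (hA : Sm E k A x) : ∀ᶠ y in 𝓝 x, Sm E k A y :=
  (contMDiffAt_iff_contMDiffAt_nhds (by simp)).1 hA

lemma Sm.mul {k : ℕ} {A B : X → G} {x : X} (hA : Sm E k A x) (hB : Sm E k B x) :
    Sm E k (fun y => A y * B y) x := ContMDiffAt.mul hA hB

lemma Sm.inv {k : ℕ} {A : X → G} {x : X} (hA : Sm E k A x) : Sm E k (fun y => (A y)⁻¹) x :=
  ContMDiffAt.inv hA

lemma Sm.ch {k : ℕ} {A : X → G} {x : X} (hA : Sm E k A x)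
    (h : A x ∈ (chartAt E (1 : G)).source) : ContDiffAt ℝ k (fun y => ch E (A y)) x := by
  have h1 : ContMDiffAt 𝓘(ℝ, E) 𝓘(ℝ, E) k (chartAt E (1 : G)) (A x) :=
    contMDiffOn_chart.contMDiffAt ((chartAt E (1 : G)).open_source.mem_nhds h)
  exact contMDiffAt_iff_contDiffAt.1 (h1.comp x hA)

lemma Sm.ch1 {k : ℕ} {A : X → G} {x : X} (hA : Sm E k A x) (h : A x = 1) :
    ContDiffAt ℝ k (fun y => MP_1ece31_lc.ch E (A y)) x :=
  hA.ch (h ▸ mem_chart_source _ _)

lemma sm_ci {k : ℕ} {u : E} (hu : u ∈ (chartAt E (1 : G)).target) : Sm E k (ci G) u :=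
  contMDiffOn_chart_symm.contMDiffAt ((chartAt E (1 : G)).open_target.mem_nhds hu)

lemma sm_ci_o {k : ℕ} : Sm E k (ci G) (o E G) := sm_ci (mem_chart_target _ _)

lemma Sm.diff {A : X → G} {x : X} (hA : Sm E 1 A x) (h : A x ∈ (chartAt E (1 : G)).source) :
    DifferentiableAt ℝ (fun y => MP_1ece31_lc.ch E (A y)) x :=
  (hA.ch h).differentiableAt (by simp)

/-- chain rule through the chart -/
lemma fd_comp {A : X → G} {x : X} (hA : Sm E 1 A x) (h : A x = 1) {F : G → G}
    (hF : Sm E 1 (fun v : E => F (ci G v)) (o E G)) (h1 : F 1 ∈ (chartAt E (1 : G)).source) :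
    fderiv ℝ (fun y => ch E (F (A y))) x =
      (fderiv ℝ (fun v => ch E (F (ci G v))) (o E G)).comp (fderiv ℝ (fun y => ch E (A y)) x) := by
  have hs : A x ∈ (chartAt E (1 : G)).source := h ▸ mem_chart_source _ _
  have e : (fun y => ch E (F (A y))) =ᶠ[𝓝 x]
      (fun v => ch E (F (ci G v))) ∘ fun y => ch E (A y) :=
    (hA.ev_src hs).mono fun y hy => by simp [ci_ch hy]
  have ho : ch E (A x) = o E G := by rw [h]; rfl
  rw [e.fderiv_eq, fderiv_comp x (by rw [ho]; exact hF.diff (by simpa using h1)) (hA.diff hs), ho]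

lemma fd_ci : fderiv ℝ (fun v => ch E (ci G v)) (o E G) = ContinuousLinearMap.id ℝ E := by
  have : (fun v => ch E (ci G v)) =ᶠ[𝓝 (o E G)] id := ev_ch_ci
  rw [this.fderiv_eq, fderiv_id]

lemma fd_diag {Z : Type*} [NormedAddCommGroup Z] [NormedSpace ℝ Z] {F : X × X → Z} {x : X}
    (hF : DifferentiableAt ℝ F (x, x)) :
    fderiv ℝ (fun y => F (y, y)) x =
      fderiv ℝ (fun y => F (y, x)) x + fderiv ℝ (fun y => F (x, y)) x := by
  have h1 := HasFDerivAt.comp x (f := fun y => (y, y)) hF.hasFDerivAt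
    ((hasFDerivAt_id (𝕜 := ℝ) x).prodMk (hasFDerivAt_id x))
  have h2 := HasFDerivAt.comp x (f := fun y => (y, x)) hF.hasFDerivAt
    ((hasFDerivAt_id (𝕜 := ℝ) x).prodMk (hasFDerivAt_const x x))
  have h3 := HasFDerivAt.comp x (f := fun y => (x, y)) hF.hasFDerivAt
    ((hasFDerivAt_const x x).prodMk (hasFDerivAt_id (𝕜 := ℝ) x))
  rw [show fderiv ℝ (fun y => F (y, y)) x = _ from h1.fderiv,
    show fderiv ℝ (fun y => F (y, x)) x = _ from h2.fderiv,
    show fderiv ℝ (fun y => F (x, y)) x = _ from h3.fderiv]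
  ext v
  simp [← map_add]

lemma fd_mul {A B : X → G} {x : X} (hA : Sm E 1 A x) (hB : Sm E 1 B x) (h : A x = 1)
    (h' : B x = 1) :
    fderiv ℝ (fun y => ch E (A y * B y)) x =
      fderiv ℝ (fun y => ch E (A y)) x + fderiv ℝ (fun y => ch E (B y)) x := by
  have : Sm E 1 (fun p : X × X => A p.1 * B p.2) (x, x) :=
    (hA.comp (f := Prod.fst) (y := (x, x)) contDiffAt_fst).mul
      (hB.comp (f := Prod.snd) (y := (x, x)) contDiffAt_snd)
  have := fd_diag (this.diff (by simp [h, h']))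
  simpa [h, h'] using this

lemma fd_conj {A : X → G} {x : X} (hA : Sm E 1 A x) (h : A x = 1) (g : G) :
    fderiv ℝ (fun y => ch E (g * A y * g⁻¹)) x =
      (Ad E g).comp (fderiv ℝ (fun y => ch E (A y)) x) :=
  fd_comp hA h (F := fun a => g * a * g⁻¹) ((sm_const.mul sm_ci_o).mul sm_const) (by simp)

@[simp] lemma Ad_one : Ad E (1 : G) = ContinuousLinearMap.id ℝ E := by
  simp [Ad, fd_ci]

lemma Ad_mul (g h : G) : Ad E (g * h) = (Ad E g).comp (Ad E h) := by
  have := fd_conj (E := E) (A := fun v : E => h * ci G v * h⁻¹) (x := o E G)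
    ((sm_const.mul sm_ci_o).mul sm_const) (by simp) g
  refine Eq.trans ?_ this
  simp [Ad, mul_assoc]

@[simp] lemma Ad_inv_Ad (g : G) (v : E) : Ad E g⁻¹ (Ad E g v) = v := by
  rw [← ContinuousLinearMap.comp_apply, ← Ad_mul]; simp

@[simp] lemma Ad_Ad_inv (g : G) (v : E) : Ad E g (Ad E g⁻¹ v) = v := by
  rw [← ContinuousLinearMap.comp_apply, ← Ad_mul]; simp

lemma th_mul {A B : X → G} {x : X} (hA : Sm E 1 A x) (hB : Sm E 1 B x) :
    th E (fun y => A y * B y) x = th E A x + (Ad E (A x)).comp (th E B x) := by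
  have h1 := fd_mul (A := fun y => A y * (A x)⁻¹) (B := fun y => A x * (B y * (B x)⁻¹) * (A x)⁻¹)
    (x := x) (hA.mul sm_const) ((sm_const.mul (hB.mul sm_const)).mul sm_const) (by simp) (by simp)
  rw [fd_conj (hB.mul sm_const) (by simp)] at h1
  rw [th, th, th, ← h1]
  simp [mul_assoc]

@[simp] lemma th_const (g : G) (x : X) : th E (fun _ : X => g) x = 0 := by simp [th]

lemma th_mul_const (A : X → G) (g : G) : th E (fun y => A y * g) = th E A := by
  ext1 x
  simp [th, mul_assoc]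

lemma th_inv {A : X → G} {x : X} (hA : Sm E 1 A x) :
    th E (fun y => (A y)⁻¹) x = -(Ad E (A x)⁻¹).comp (th E A x) := by
  have := th_mul hA.inv hA
  simp only [inv_mul_cancel, th_const] at this
  exact eq_neg_of_add_eq_zero_left this.symm

lemma th_comp {A : X → G} {f : Y → X} {y : Y} (hA : Sm E 1 A (f y))
    (hf : DifferentiableAt ℝ f y) :
    th E (fun z => A (f z)) y = (th E A (f y)).comp (fderiv ℝ f y) :=
  fderiv_comp y ((hA.mul sm_const).diff (by simp)) hf

lemma th_one {A : X → G} {x : X} (h : A x = 1) :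
    th E A x = fderiv ℝ (fun y => ch E (A y)) x := by simp [th, h]

lemma Sm.th {k : ℕ} {A : X → G} {x : X} (hA : Sm E (k + 1) A x) :
    ContDiffAt ℝ k (th E A) x := by
  have : Sm E (k + 1) (fun p : X × X => A p.2 * (A p.1)⁻¹) (x, x) :=
    (hA.comp (f := Prod.snd) (y := (x, x)) contDiffAt_snd).mul
      (hA.comp (f := Prod.fst) (y := (x, x)) contDiffAt_fst).inv
  exact ContDiffAt.fderiv (f := fun x y => MP_1ece31_lc.ch E (A y * (A x)⁻¹)) (g := id)
    (this.ch1 (by simp)) contDiffAt_id (by norm_cast)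

lemma Sm.Ad0 {k : ℕ} {A : X → G} {x : X} (hA : Sm E (k + 1) A x) :
    ContDiffAt ℝ k (fun y => Ad E (A y)) x := by
  have : Sm E (k + 1) (fun p : X × E => A p.1 * ci G p.2 * (A p.1)⁻¹) (x, o E G) :=
    ((hA.comp (f := Prod.fst) (y := (x, o E G)) contDiffAt_fst).mul
      (sm_ci_o.comp (f := Prod.snd) (y := (x, o E G)) contDiffAt_snd)).mul
      (hA.comp (f := Prod.fst) (y := (x, o E G)) contDiffAt_fst).inv
  exact ContDiffAt.fderiv (f := fun x v => MP_1ece31_lc.ch E (A x * ci G v * (A x)⁻¹))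
    (g := fun _ => o E G) (this.ch1 (by simp)) contDiffAt_const (by norm_cast)

lemma hasFD_Ad {A : X → G} {x : X} (hA : Sm E 1 A x) :
    HasFDerivAt (fun y => Ad E (A y))
      (((ContinuousLinearMap.compL ℝ E E E).flip (Ad E (A x))).comp ((ad E G).comp (th E A x))) x := by
  have hB : Sm E 1 (fun y => A y * (A x)⁻¹) x := hA.mul sm_const
  have e : (fun y => Ad E (A y)) =ᶠ[𝓝 x] fun y =>
      (ContinuousLinearMap.compL ℝ E E E).flip (Ad E (A x))
        (Ad E (ci G (ch E (A y * (A x)⁻¹)))) :=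
    (hB.ev_src (by simp)).mono fun y hy => by
      simp [ci_ch hy, ← Ad_mul]
  refine HasFDerivAt.congr_of_eventuallyEq ?_ e
  refine (ContinuousLinearMap.hasFDerivAt _).comp x ?_
  have h1 : HasFDerivAt (fun u : E => Ad E (ci G u)) (ad E G) (ch E (A x * (A x)⁻¹)) := by
    rw [mul_inv_cancel]
    exact ((sm_ci_o (k := 2)).Ad0.differentiableAt (by simp)).hasFDerivAt
  exact h1.comp x (hB.diff (by simp)).hasFDerivAt

lemma th_ci : th E (ci G) (o E G) = ContinuousLinearMap.id ℝ E := by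
  rw [th_one ci_o, fd_ci]

lemma Ad_ad (g : G) (v w : E) : Ad E g (ad E G v w) = ad E G (Ad E g v) (Ad E g w) := by
  have h1 := hasFD_Ad (E := E) (A := fun u : E => g * ci G u * g⁻¹) (x := o E G)
    ((sm_const.mul sm_ci_o).mul sm_const)
  have h2 := hasFD_Ad (E := E) (A := ci G) (x := o E G) sm_ci_o
  have h3 := ((ContinuousLinearMap.compL ℝ E E E).flip (Ad E g⁻¹)).hasFDerivAt.comp _
    (((ContinuousLinearMap.compL ℝ E E E) (Ad E g)).hasFDerivAt.comp _ h2)
  have e : (fun u : E => Ad E (g * ci G u * g⁻¹)) =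
      ((ContinuousLinearMap.compL ℝ E E E).flip (Ad E g⁻¹)) ∘
        ((ContinuousLinearMap.compL ℝ E E E) (Ad E g)) ∘ fun y => Ad E (ci G y) := by
    ext1 u
    simp [Ad_mul]
  rw [e] at h1
  have h4 := congrArg (fun L => L v (Ad E g w)) (h1.unique h3)
  rw [th_one (by simp)] at h4
  simp only [ContinuousLinearMap.comp_apply] at h4
  rw [th_ci] at h4
  simp only [ContinuousLinearMap.flip_apply, ContinuousLinearMap.compL_apply,
    ContinuousLinearMap.comp_apply, ci_o, Ad_one, mul_one, mul_inv_cancel,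
    ContinuousLinearMap.id_apply, Ad_inv_Ad] at h4
  exact h4.symm

lemma fd_eq_Rt {A : X → G} {x : X} (hA : Sm E 1 A x) (h : A x ∈ (chartAt E (1 : G)).source) :
    fderiv ℝ (fun y => ch E (A y)) x = (Rt G (ch E (A x))).comp (th E A x) := by
  have := fd_comp (A := fun y => A y * (A x)⁻¹) (x := x) (hA.mul sm_const) (by simp)
    (F := fun a => a * A x) (sm_ci_o.mul sm_const) (by simpa using h)
  rw [Rt, ci_ch h, th, ← this]
  simp

lemma Rt_o : Rt G (o E G) = ContinuousLinearMap.id ℝ E := by simp [Rt, fd_ci]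

lemma Lt_eq {u : E} (hu : u ∈ (chartAt E (1 : G)).target) :
    Lt G u = (Rt G u).comp (Ad E (ci G u)) := by
  have := fd_comp (E := E) (A := fun v : E => ci G u * ci G v * (ci G u)⁻¹) (x := o E G)
    ((sm_const.mul sm_ci_o).mul sm_const) (by simp)
    (F := fun a => a * ci G u) (sm_ci_o.mul sm_const)
    (by rw [one_mul]; exact (chartAt E (1 : G)).map_target hu)
  rw [Rt, Ad, ← this, Lt]
  simp

lemma sm_m : ContDiffAt ℝ 2 (fun p : E × E => ch E (ci G p.1 * ci G p.2)) (o E G, o E G) :=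
  ((sm_ci_o.comp (f := Prod.fst) (y := (o E G, o E G)) contDiffAt_fst).mul
    (sm_ci_o.comp (f := Prod.snd) (y := (o E G, o E G)) contDiffAt_snd)).ch1 (k := 2) (by simp)

lemma hasFD_Rt : ∃ B : E →L[ℝ] E →L[ℝ] E, HasFDerivAt (Lt G) B (o E G) ∧
    HasFDerivAt (Rt G) B.flip (o E G) := by
  set m := fun p : E × E => ch E (ci G p.1 * ci G p.2) with hm
  have h2 : ContDiffAt ℝ 2 m (o E G, o E G) := sm_m
  have hd : HasFDerivAt (fderiv ℝ m) (fderiv ℝ (fderiv ℝ m) (o E G, o E G)) (o E G, o E G) :=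
    ((h2.fderiv_right (m := 1) (by norm_num)).differentiableAt (by simp)).hasFDerivAt
  have hs := h2.isSymmSndFDerivAt (by simp)
  have hev : ∀ᶠ p in 𝓝 (o E G, o E G), DifferentiableAt ℝ m p :=
    (h2.eventually (by simp)).mono fun p hp => hp.differentiableAt (by simp)
  have c1 : Tendsto (fun u : E => (u, o E G)) (𝓝 (o E G)) (𝓝 (o E G, o E G)) :=
    (continuous_id.prodMk continuous_const).tendsto _
  have c2 : Tendsto (fun u : E => (o E G, u)) (𝓝 (o E G)) (𝓝 (o E G, o E G)) :=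
    (continuous_const.prodMk continuous_id).tendsto _
  have e1 : Lt G =ᶠ[𝓝 (o E G)] fun u => (ContinuousLinearMap.compL ℝ E (E × E) E).flip
      (ContinuousLinearMap.inr ℝ E E) (fderiv ℝ m (u, o E G)) :=
    (c1.eventually hev).mono fun u hu => (hu.hasFDerivAt.comp (o E G) (hasFDerivAt_prodMk_right u _)).fderiv
  have e2 : Rt G =ᶠ[𝓝 (o E G)] fun u => (ContinuousLinearMap.compL ℝ E (E × E) E).flip
      (ContinuousLinearMap.inl ℝ E E) (fderiv ℝ m (o E G, u)) :=
    (c2.eventually hev).mono fun u hu => (HasFDerivAt.comp (o E G) (f := fun v => (v, u))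
      hu.hasFDerivAt (hasFDerivAt_prodMk_left _ u)).fderiv
  have d1 := (((ContinuousLinearMap.compL ℝ E (E × E) E).flip
      (ContinuousLinearMap.inr ℝ E E)).hasFDerivAt.comp (o E G)
      (HasFDerivAt.comp (o E G) (f := fun u => (u, o E G)) hd
        (hasFDerivAt_prodMk_left (𝕜 := ℝ) (o E G) (o E G)))).congr_of_eventuallyEq e1
  have d2 := (((ContinuousLinearMap.compL ℝ E (E × E) E).flip
      (ContinuousLinearMap.inl ℝ E E)).hasFDerivAt.comp (o E G)
      (HasFDerivAt.comp (o E G) (f := fun u => (o E G, u)) hd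
        (hasFDerivAt_prodMk_right (𝕜 := ℝ) (o E G) (o E G)))).congr_of_eventuallyEq e2
  refine ⟨_, d1, d2.congr_fderiv ?_⟩
  ext p q
  simpa using hs _ _

lemma exists_B : ∃ B : E →L[ℝ] E →L[ℝ] E, HasFDerivAt (Lt G) B (o E G) ∧
    HasFDerivAt (Rt G) B.flip (o E G) ∧ ∀ v w, ad E G v w = B v w - B w v := by
  obtain ⟨B, h1, h2⟩ := hasFD_Rt (E := E) (G := G)
  refine ⟨B, h1, h2, fun v w => ?_⟩
  have h3 := h2.clm_comp (hasFD_Ad (E := E) (A := ci G) (x := o E G) sm_ci_o)
  have e : Lt G =ᶠ[𝓝 (o E G)] fun u => (Rt G u).comp (Ad E (ci G u)) :=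
    (ev_target (G := G)).mono fun u hu => Lt_eq hu
  have h4 := congrArg (fun L => L v w) ((h3.congr_of_eventuallyEq e).unique h1)
  simp [th_ci, Rt_o] at h4
  rw [← h4]
  simp

lemma ad_anti (v w : E) : ad E G v w = -ad E G w v := by
  obtain ⟨B, -, -, h⟩ := exists_B (E := E) (G := G)
  rw [h, h]
  simp

/-- Maurer-Cartan equation -/
lemma mc {A : X → G} {x : X} (hA : Sm E 2 A x) (v w : X) :
    fderiv ℝ (th E A) x v w - fderiv ℝ (th E A) x w v = ad E G (th E A x v) (th E A x w) := by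
  wlog h : A x = 1 generalizing A
  · have := this (A := fun y => A y * (A x)⁻¹) (hA.mul sm_const) (by simp)
    rwa [th_mul_const] at this
  obtain ⟨B, -, h2, h3⟩ := exists_B (E := E) (G := G)
  have ha := hA.ch1 h
  have ho : ch E (A x) = o E G := by rw [h]; rfl
  have e : fderiv ℝ (fun y => ch E (A y)) =ᶠ[𝓝 x]
      fun y => (Rt G (ch E (A y))).comp (th E A y) := by
    filter_upwards [hA.ev, hA.ev_src (h ▸ mem_chart_source _ _)] with y h1 h2
    exact fd_eq_Rt (h1.of_le (by norm_num)) h2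
  have d1 : HasFDerivAt (fun y => Rt G (ch E (A y))) (B.flip.comp (th E A x)) x := by
    rw [← ho] at h2
    rw [th_one h]
    exact h2.comp x (ha.differentiableAt (by simp)).hasFDerivAt
  have d2 := ((hA.th (k := 1)).differentiableAt (by simp)).hasFDerivAt
  have d3 := ((d1.clm_comp d2).congr_of_eventuallyEq e).fderiv
  have hs := ha.isSymmSndFDerivAt (by simp) v w
  rw [d3] at hs
  simp [ho, Rt_o] at hs
  rw [h3, sub_eq_sub_iff_add_eq_add, hs, add_comm]

end

end Pool.Agent.Lib.MP_1ece31_lc
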