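import Pool.Agent.Lib.MP_1ece31_lc.BarBase

set_option linter.unusedSectionVars false

namespace Pool.Agent.Lib.MP_1ece31_lc

open Filter Set Topology Module
open scoped Manifold ContDiff

universe u

variable {E : Type*} [NormedAddCommGroup E] [NormedSpace ℝ E] [FiniteDimensional ℝ E]
  {G : Type*} [Group G] [TopologicalSpace G] [ChartedSpace E G] [LieGroup 𝓘(ℝ, E) ∞ G]
  {L1 L2 L3 : Type*} [NormedAddCommGroup L1] [NormedSpace ℝ L1]
  [NormedAddCommGroup L2] [NormedSpace ℝ L2] [NormedAddCommGroup L3] [NormedSpace ℝ L3]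

variable (E G L1 L2 L3) in
/-- the statement proved by induction -/
def Claim (k : ℕ) : Prop :=
  ∀ (h Z : Submodule ℝ E) (X : Type u) [NormedAddCommGroup X] [NormedSpace ℝ X]
    [FiniteDimensional ℝ X] (D : Set X) (A A' : X → G) (ℓ : X → L1 × L2 × L3) (R : ℕ),
    finrank ℝ h < k → (∀ v ∈ h, ∀ w ∈ h, ad E G v w ∈ h) → Z ≤ h → D.Nonempty →
    Dat (k + 1) h Z D A A' ℓ → (∀ x ∈ D, Function.Injective (fderiv ℝ ℓ x)) →
    (∀ μ, finrank ℝ h ≤ R + finrank ℝ (orth h h (om G μ))) →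
    2 * finrank ℝ X ≤ 2 * finrank ℝ Z + R

section
variable {Y : Type*} [NormedAddCommGroup Y] [NormedSpace ℝ Y] {A : Y → G} {lam : Y → E →L[ℝ] ℝ}
  {e : Y}

lemma ident (hA : Sm E 2 A e) (hl : DifferentiableAt ℝ lam e)
    (h : ∀ᶠ y in 𝓝 e, ∀ w, lam y (th E A y w) = 0) (v w : Y) :
    fderiv ℝ lam e v (th E A e w) - fderiv ℝ lam e w (th E A e v) +
      om G (lam e) (th E A e v) (th E A e w) = 0 := by
  have d := hl.hasFDerivAt.clm_comp ((hA.th (k := 1)).differentiableAt (by simp)).hasFDerivAt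
  have e0 : (fun _ => (0 : Y →L[ℝ] ℝ)) =ᶠ[𝓝 e] fun y => (lam y).comp (th E A y) :=
    h.mono fun y hy => by ext w; exact (hy w).symm
  have d0 := (d.congr_of_eventuallyEq e0).unique (hasFDerivAt_const _ _)
  have h1 := congrArg (fun L => L v w) d0
  have h2 := congrArg (fun L => L w v) d0
  simp at h1 h2
  rw [om_apply, ← mc hA, map_sub]
  linarith

lemma fd_lamAd (hA : Sm E 1 A e) (hl : DifferentiableAt ℝ lam e) :
    ∃ L : Y →L[ℝ] E →L[ℝ] ℝ, HasFDerivAt (fun y => (lam y).comp (Ad E (A y))) L e ∧ ∀ w v, L w v =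
      fderiv ℝ lam e w (Ad E (A e) v) + om G (lam e) (th E A e w) (Ad E (A e) v) :=
  ⟨_, hl.hasFDerivAt.clm_comp (hasFD_Ad hA), fun w v => by simp [add_comm]⟩

lemma nm_stab {h : Submodule ℝ E} (hb : ∀ v ∈ h, ∀ w ∈ h, ad E G v w ∈ h) {g : G} (hg : Nm h g)
    {μ : E →L[ℝ] ℝ} (hμ : ∀ v ∈ h, μ (Ad E g v) = μ v) : Nm (orth h h (om G μ) ⊓ μ.ker) g := by
  intro v
  simp only [Submodule.mem_inf, mem_orth, om_apply, LinearMap.mem_ker, ContinuousLinearMap.coe_coe,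
    hg v, and_assoc]
  refine and_congr_right fun hv => and_congr ⟨fun H w hw => ?_, fun H w hw => ?_⟩ (by rw [hμ v hv])
  · rw [← hμ _ (hb v hv w hw), Ad_ad]
    exact H _ ((hg w).2 hw)
  · have hw' := (hg.inv w).2 hw
    rw [← Ad_Ad_inv g w, ← Ad_ad, hμ _ (hb v hv _ hw')]
    exact H _ hw'

end

lemma step {k : ℕ} (IH : Claim.{u} E G L1 L2 L3 k) {h : Submodule ℝ E} {Y : Type u}
    [NormedAddCommGroup Y] [NormedSpace ℝ Y] [FiniteDimensional ℝ Y] {D : Set Y} {A A' : Y → G}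
    {ℓ : Y → L1 × L2 × L3} {R : ℕ} (hk : finrank ℝ h ≤ k)
    (hb : ∀ v ∈ h, ∀ w ∈ h, ad E G v w ∈ h) (hD : D.Nonempty) (hd : Dat (k + 2) h h D A A' ℓ)
    {lam : Y → E →L[ℝ] ℝ} (hl : ∀ e ∈ D, ContDiffAt ℝ (k + 1 : ℕ) lam e)
    (hA : ∀ e ∈ D, ∀ w, lam e (th E A e w) = 0) (hA' : ∀ e ∈ D, ∀ w, lam e (th E A' e w) = 0)
    (hne : ∀ e ∈ D, ∃ v ∈ h, lam e v ≠ 0) (hrad : ∀ e ∈ D, ∃ w, fderiv ℝ lam e w = lam e)
    (hi : ∀ e ∈ D, ∀ w, fderiv ℝ ℓ e w = 0 → (∀ v ∈ h, fderiv ℝ lam e w v = 0) → w = 0)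
    (hR : ∀ μ, finrank ℝ h ≤ R + finrank ℝ (orth h h (om G μ))) :
    2 * finrank ℝ Y ≤ 2 * finrank ℝ h + R := by
  let res := (ContinuousLinearMap.compL ℝ h E ℝ).flip h.subtypeL
  have hres : ∀ f g, res f = res g ↔ ∀ v ∈ h, f v = g v := fun f g =>
    ⟨fun e w hw => congrArg (fun L => L ⟨w, hw⟩) e, fun e => by ext w; exact e w.1 w.2⟩
  have hres0 : ∀ f, res f = 0 ↔ ∀ v ∈ h, f v = 0 := fun f => by
    rw [← map_zero res, hres]; rfl
  let Ψ := fun e => (res (lam e), res ((lam e).comp (Ad E (A e))), res ((lam e).comp (Ad E (A' e))))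
  have hld : ∀ e ∈ D, DifferentiableAt ℝ lam e := fun e he => (hl e he).differentiableAt (by simp)
  have hΨ : ∀ e ∈ D, ContDiffAt ℝ (k + 1 : ℕ) Ψ e := fun e he =>
    (contDiffAt_const.clm_apply (hl e he)).prodMk
      ((contDiffAt_const.clm_apply ((hl e he).clm_comp (hd.sA e he).Ad0)).prodMk
        (contDiffAt_const.clm_apply ((hl e he).clm_comp (hd.sA' e he).Ad0)))
  have hI : ∀ e ∈ D, _ := fun e he => ident ((hd.sA e he).of_le (by omega)) (hld e he)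
    (mem_of_superset (hd.op.mem_nhds he) hA)
  have hI' : ∀ e ∈ D, _ := fun e he => ident ((hd.sA' e he).of_le (by omega)) (hld e he)
    (mem_of_superset (hd.op.mem_nhds he) hA')
  have hdΨ : ∀ e ∈ D, ∀ w, (fderiv ℝ Ψ e w).1 = res (fderiv ℝ lam e w) ∧
      (fderiv ℝ Ψ e w = 0 ↔ (∀ v ∈ h, fderiv ℝ lam e w v = 0) ∧
        th E A e w ∈ orth h h (om G (lam e)) ∧ th E A' e w ∈ orth h h (om G (lam e))) := by
    intro e he w
    obtain ⟨L, d1, hL⟩ := fd_lamAd ((hd.sA e he).of_le (by omega)) (hld e he)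
    obtain ⟨L', d2, hL'⟩ := fd_lamAd ((hd.sA' e he).of_le (by omega)) (hld e he)
    have d := (res.hasFDerivAt.comp e (hld e he).hasFDerivAt).prodMk
      ((res.hasFDerivAt.comp e d1).prodMk (res.hasFDerivAt.comp e d2))
    rw [show fderiv ℝ Ψ e = _ from d.fderiv]
    refine ⟨rfl, ?_⟩
    simp only [ContinuousLinearMap.prod_apply, ContinuousLinearMap.comp_apply, Prod.mk_eq_zero,
      hres0, hL, hL', mem_orth, hd.tA e he, hd.tA' e he, true_and]
    have key : ∀ (g : G) (a : E), Nm h g → (∀ v ∈ h, fderiv ℝ lam e w v = 0) →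
        ((∀ v ∈ h, fderiv ℝ lam e w (Ad E g v) + om G (lam e) a (Ad E g v) = 0) ↔
          ∀ v ∈ h, om G (lam e) a v = 0) := fun g a hg H =>
      ⟨fun H' v hv => by simpa [H v hv] using H' _ ((hg.inv v).2 hv),
        fun H' v hv => by rw [H _ ((hg v).2 hv), H' _ ((hg v).2 hv), add_zero]⟩
    exact and_congr_right fun H => and_congr (key _ _ (hd.nA e he) H) (key _ _ (hd.nA' e he) H)
  obtain ⟨e0, he0, hmax⟩ := exists_max hD (fun e => finrank ℝ (fderiv ℝ Ψ e).range) _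
    fun e => Submodule.finrank_le _
  obtain ⟨ι, hι0, hι⟩ := const_rank (by omega) (hΨ e0 he0)
    (mem_of_superset (hd.op.mem_nhds he0) hmax)
  have ht : Tendsto ι (𝓝 0) (𝓝 e0) := by
    simpa only [hι0] using hι.self_of_nhds.1.continuousAt.tendsto
  obtain ⟨t, H, hto, ht0⟩ := eventually_nhds_iff.1 (hι.and (ht.eventually (hd.op.mem_nhds he0)))
  have hιd : ∀ y ∈ t, DifferentiableAt ℝ ι y := fun y hy => (H y hy).1.1.differentiableAt (by simp)
  have hker : ∀ y ∈ t, ∀ v, fderiv ℝ Ψ (ι y) (fderiv ℝ ι y v) = 0 := fun y hy v => by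
    have d := ((hΨ _ (H y hy).2).differentiableAt (by simp)).hasFDerivAt.comp y
      (hιd y hy).hasFDerivAt
    have e0 : (fun _ => Ψ e0) =ᶠ[𝓝 y] Ψ ∘ ι :=
      mem_of_superset (hto.mem_nhds hy) fun z hz => (H z hz).1.2.2.1.symm
    exact congrArg (fun L => L v) ((d.congr_of_eventuallyEq e0).unique (hasFDerivAt_const _ _))
  set l0 := lam e0 with hl0
  have hle : ∀ y ∈ t, ∀ v ∈ h, lam (ι y) v = l0 v := fun y hy =>
    (hres _ _).1 (congrArg Prod.fst (H y hy).1.2.2.1)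
  let Z := orth h h (om G l0) ⊓ (fderiv ℝ lam e0).flip.ker
  have hZ : ∀ y ∈ t, ∀ (C : Y → G) (w : Y), (∀ v, th E C (ι y) v ∈ h) →
      (∀ v ∈ h, fderiv ℝ lam (ι y) w v = 0) → th E C (ι y) w ∈ orth h h (om G (lam (ι y))) →
      (∀ v w, fderiv ℝ lam (ι y) v (th E C (ι y) w) - fderiv ℝ lam (ι y) w (th E C (ι y) v) +
        om G (lam (ι y)) (th E C (ι y) v) (th E C (ι y) w) = 0) → th E C (ι y) w ∈ Z := by
    intro y hy C w h1 h2 h3 h4
    refine ⟨⟨h1 w, fun v hv => (hle y hy _ (hb _ (h1 w) v hv)).symm.trans (h3.2 v hv)⟩, ?_⟩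
    ext v
    obtain ⟨v', hv'⟩ := (H y hy).1.2.2.2 ⟨v, rfl⟩
    have e1 := congrArg Prod.fst hv'
    simp only [ContinuousLinearMap.coe_coe, (hdΨ _ (H y hy).2 _).1, (hdΨ _ he0 _).1] at e1
    have e2 := h4 w v'
    rw [h2 _ (h1 v'), h3.2 _ (h1 v'), (hres _ _).1 e1 _ (h1 w)] at e2
    simpa using e2
  have hN : ∀ y ∈ t, ∀ g g0 : G, Nm h g → Nm h g0 →
      res ((lam (ι y)).comp (Ad E g)) = res (l0.comp (Ad E g0)) →
      Nm (orth h h (om G l0) ⊓ l0.ker) (g * g0⁻¹) := by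
    intro y hy g g0 h1 h2 h3
    refine nm_stab hb (h1.mul h2.inv) fun v hv => ?_
    have hv' := (h2.inv v).2 hv
    rw [Ad_mul, ContinuousLinearMap.comp_apply, ← hle y hy _ ((h1 _).2 hv')]
    simpa using (hres _ _).1 h3 _ hv'
  have hc := hd.comp (l := k + 1) (by omega) (by omega) hto (fun y hy => (H y hy).2)
    fun y hy => (H y hy).1.1
  have hlt : finrank ℝ (orth h h (om G l0) ⊓ l0.ker : Submodule ℝ E) < finrank ℝ h := by
    obtain ⟨v, hv, hv'⟩ := hne e0 he0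
    exact Submodule.finrank_lt_finrank_of_lt
      (SetLike.lt_iff_le_and_exists.2 ⟨fun z hz => hz.1.1, v, hv, fun hz => hv' hz.2⟩)
  have key := IH (orth h h (om G l0) ⊓ l0.ker) Z _ t (fun y => A (ι y) * (A e0)⁻¹)
    (fun y => A' (ι y) * (A' e0)⁻¹) (fun y => ℓ (ι y))
    (R + finrank ℝ (orth h h (om G l0)) - finrank ℝ h) (by omega)
    (fun v hv w hw => ⟨⟨hb v hv.1.1 w hw.1.1, fun x hx => ?_⟩, hv.1.2 w hw.1.1⟩)
    (fun z hz => ⟨hz.1, ?_⟩) ⟨0, ht0⟩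
    ⟨hto, fun y hy => (hc.sA y hy).mul sm_const, fun y hy => (hc.sA' y hy).mul sm_const,
      fun y hy => hN y hy _ _ (hc.nA y hy) (hd.nA e0 he0) (congrArg (·.2.1) (H y hy).1.2.2.1),
      fun y hy => hN y hy _ _ (hc.nA' y hy) (hd.nA' e0 he0) (congrArg (·.2.2) (H y hy).1.2.2.1),
      fun y hy v => ?_, fun y hy v => ?_, hc.dl,
      fun x hx y hy z hz e => hc.tp x hx y hy z hz (by simpa [mul_assoc] using e)⟩
    (fun y hy => ?_) (fun μ => ?_)
  · have := count h (om G l0) (om_anti l0) (fderiv ℝ lam e0) (th E A e0) (th E A' e0)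
      (hd.tA e0 he0) (hd.tA' e0 he0) (hI e0 he0) (hI' e0 he0) (fderiv ℝ Ψ e0).ker
      (fun w h1 h2 h3 => (hdΨ e0 he0 w).2.2 ⟨h1, h2, h3⟩) Z inf_le_left
      fun z hz w => congrArg (fun L => L w) hz.2
    have := hR l0
    omega
  · have e1 := congrArg l0 (jacobi (G := G) v w x)
    have e2 := hv.1.2 _ (hb w hw.1.1 x hx)
    have e3 := hw.1.2 _ (hb v hv.1.1 x hx)
    simp only [om_apply, map_add] at e1 e2 e3 ⊢
    linarith
  · obtain ⟨w, hw⟩ := hrad e0 he0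
    have := congrArg (fun L => L w) hz.2
    simpa [hw] using this
  · rw [th_mul_const, th_comp ((hd.sA _ (H y hy).2).of_le (by omega)) (hιd y hy)]
    have := (hdΨ _ (H y hy).2 _).2.1 (hker y hy v)
    exact hZ y hy A _ (hd.tA _ (H y hy).2) this.1 this.2.1 (hI _ (H y hy).2)
  · rw [th_mul_const, th_comp ((hd.sA' _ (H y hy).2).of_le (by omega)) (hιd y hy)]
    have := (hdΨ _ (H y hy).2 _).2.1 (hker y hy v)
    exact hZ y hy A' _ (hd.tA' _ (H y hy).2) this.1 this.2.2 (hI' _ (H y hy).2)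
  · rw [injective_iff_map_eq_zero]
    intro v hv
    rw [fderiv_fun_comp y (hd.dl _ (H y hy).2) (hιd y hy)] at hv
    exact (injective_iff_map_eq_zero _).1 (H y hy).1.2.1 v
      (hi _ (H y hy).2 _ hv ((hdΨ _ (H y hy).2 _).2.1 (hker y hy v)).1)
  · have := vinberg (ω' := om G μ) (om_anti (G := G) l0) (inf_le_left (b := l0.ker))
      (R := R) fun ε => by
      rw [show om G l0 + ε • om G μ = om G (l0 + ε • μ) by ext; simp]
      exact hR _
    have := hR l0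
    omega

theorem claim (k : ℕ) : Claim.{u} E G L1 L2 L3 k := by
  induction k with
  | zero => intro h Z X _ _ _ D A A' ℓ R hk; omega
  | succ k IH =>
  intro h Z X _ _ _ D A A' ℓ R hk hb hZ hD hd hi hR
  have hd' : Dat (k + 2) h h D A A' ℓ := ⟨hd.op, hd.sA, hd.sA', hd.nA, hd.nA',
    fun x hx v => hZ (hd.tA x hx v), fun x hx v => hZ (hd.tA' x hx v), hd.dl, hd.tp⟩
  let θ := fun x => (th E A x).comp (ContinuousLinearMap.fst ℝ X X) +
    (th E A' x).comp (ContinuousLinearMap.snd ℝ X X)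
  have hθ : ∀ x ∈ D, (θ x).range ≤ Z := by
    rintro x hx _ ⟨v, rfl⟩
    exact Z.add_mem (hd.tA x hx _) (hd.tA' x hx _)
  obtain ⟨x0, hx0, hmax⟩ := exists_max hD (fun e => finrank ℝ (θ e).range) _
    fun e => Submodule.finrank_le _
  have hW := Submodule.finrank_mono (hθ x0 hx0)
  obtain ⟨c, Λ, hc, hΛ⟩ := exists_frame (k := k + 1) (θ := θ) (x0 := x0) (h := h)
    (((hd.sA x0 hx0).th.clm_comp contDiffAt_const).add
      ((hd.sA' x0 hx0).th.clm_comp contDiffAt_const))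
    (mem_of_superset (hd.op.mem_nhds hx0) fun x hx => (hθ x hx).trans hZ)
    (mem_of_superset (hd.op.mem_nhds hx0) hmax)
  rcases Nat.eq_zero_or_pos c with rfl | hpos
  · have e : (θ x0).range = h :=
      Submodule.eq_of_le_of_finrank_le ((hθ x0 hx0).trans hZ) (by omega)
    have := base (hd'.comp le_rfl (by omega) hd.op (f := id) (fun _ h => h)
      fun _ _ => contDiffAt_id) hx0 (hi x0 hx0) fun w hw => by
        obtain ⟨v, hv⟩ : w ∈ (θ x0).range := e ▸ hw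
        exact ⟨v.1, v.2, hv⟩
    omega
  obtain ⟨t, H, hto, ht0⟩ := eventually_nhds_iff.1 (hΛ.and (hd.op.mem_nhds hx0))
  have : Nonempty (Fin c) := ⟨⟨0, hpos⟩⟩
  have hl : ∀ e ∈ t ×ˢ ({0}ᶜ : Set (Fin c → ℝ)),
      ContDiffAt ℝ (k + 1 : ℕ) (fun e : X × (Fin c → ℝ) => Λ e.1 e.2) e := fun e he =>
    ((H _ he.1).1.1.comp e contDiffAt_fst).clm_apply contDiffAt_snd
  have hf : ∀ e ∈ t ×ˢ ({0}ᶜ : Set (Fin c → ℝ)), ∀ ξ,
      fderiv ℝ (fun e : X × (Fin c → ℝ) => Λ e.1 e.2) e (0, ξ) = Λ e.1 ξ := fun e he ξ =>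
    congrArg (fun L => L ξ) ((HasFDerivAt.comp e.2 (f := fun y => (e.1, y))
      ((hl e he).differentiableAt (by simp)).hasFDerivAt
      (hasFDerivAt_prodMk_right e.1 e.2)).unique (Λ e.1).hasFDerivAt)
  have := step IH (by omega) hb (D := t ×ˢ ({0}ᶜ : Set (Fin c → ℝ)))
    (Nonempty.prod ⟨x0, ht0⟩ ⟨1, one_ne_zero⟩)
    (hd'.comp (by omega) le_rfl (hto.prod isOpen_compl_singleton) (f := Prod.fst)
      (fun y hy => (H _ hy.1).2) fun _ _ => contDiffAt_fst) hl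
    (fun e he w => ?_) (fun e he w => ?_) (fun e he => ?_) (fun e he => ⟨_, hf e he _⟩)
    (fun e he w h1 h2 => ?_) hR
  · simp only [finrank_prod, finrank_fin_fun] at this
    omega
  · rw [th_comp ((hd.sA _ (H _ he.1).2).of_le (by omega)) differentiableAt_fst]
    simpa [θ, fderiv_fst] using (H _ he.1).1.2.1 e.2 (w.1, 0)
  · rw [th_comp ((hd.sA' _ (H _ he.1).2).of_le (by omega)) differentiableAt_fst]
    simpa [θ, fderiv_fst] using (H _ he.1).1.2.1 e.2 (0, w.1)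
  · by_contra! hn
    exact he.2 ((H _ he.1).1.2.2 _ hn)
  · rw [fderiv_fun_comp e (hd.dl _ (H _ he.1).2) differentiableAt_fst, fderiv_fst] at h1
    obtain ⟨a, b⟩ := w
    obtain rfl : a = 0 := (injective_iff_map_eq_zero _).1 (hi _ (H _ he.1).2) _ h1
    rw [hf e he] at h2
    rw [(H _ he.1).1.2.2 _ h2]
    rfl

end Pool.Agent.Lib.MP_1ece31_lc
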