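import Mathlib

set_option linter.unusedSectionVars false

namespace Pool.Agent.Lib.MP_1ece31_lc

open Filter Set Topology Module

variable {X F : Type*} [NormedAddCommGroup X] [NormedSpace ℝ X] [FiniteDimensional ℝ X]
  [NormedAddCommGroup F] [NormedSpace ℝ F] [FiniteDimensional ℝ F]

lemma exists_proj (p : Submodule ℝ X) : ∃ q : X →L[ℝ] p, ∀ v : p, q v = v := by
  obtain ⟨g, hg⟩ := p.subtype.exists_leftInverse_of_injective p.ker_subtype
  exact ⟨LinearMap.toContinuousLinearMap g, fun v => LinearMap.congr_fun hg v⟩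

lemma exists_max {α : Type*} {D : Set α} (hD : D.Nonempty) (r : α → ℕ) (B : ℕ)
    (hB : ∀ x, r x ≤ B) : ∃ x ∈ D, ∀ y ∈ D, r y ≤ r x := by
  have hb : BddAbove (r '' D) := ⟨B, by rintro _ ⟨x, -, rfl⟩; exact hB x⟩
  obtain ⟨x, hx, h⟩ := Nat.sSup_mem (hD.image r) hb
  exact ⟨x, hx, fun y hy => h ▸ le_csSup hb ⟨y, hy, rfl⟩⟩

lemma inj_on_range {V W R : Type*} [AddCommGroup V] [Module ℝ V] [AddCommGroup W] [Module ℝ W]
    [AddCommGroup R] [Module ℝ R] [FiniteDimensional ℝ V]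
    (T : V →ₗ[ℝ] W) (π : W →ₗ[ℝ] R) (h1 : Function.Surjective (π ∘ₗ T))
    (h2 : finrank ℝ T.range ≤ finrank ℝ R) {v : V} (hv : π (T v) = 0) : T v = 0 := by
  have e1 := T.finrank_range_add_finrank_ker
  have e2 := (π ∘ₗ T).finrank_range_add_finrank_ker
  rw [LinearMap.range_eq_top.2 h1, finrank_top] at e2
  have e3 : T.ker = (π ∘ₗ T).ker :=
    Submodule.eq_of_le_of_finrank_le (fun v hv => by simp [LinearMap.mem_ker.1 hv]) (by omega)
  have : v ∈ (π ∘ₗ T).ker := hv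
  rwa [← e3] at this

/-- constant rank theorem, the fibre through the base point -/
lemma const_rank {k : ℕ} (hk : 1 ≤ k) {f : X → F} {x0 : X} (hf : ContDiffAt ℝ k f x0)
    (hr : ∀ᶠ x in 𝓝 x0, finrank ℝ (fderiv ℝ f x).range ≤ finrank ℝ (fderiv ℝ f x0).range) :
    ∃ ι : (fderiv ℝ f x0).ker → X, ι 0 = x0 ∧ ∀ᶠ y in 𝓝 0, ContDiffAt ℝ k ι y ∧
      Function.Injective (fderiv ℝ ι y) ∧ f (ι y) = f x0 ∧
      (fderiv ℝ f x0).range ≤ (fderiv ℝ f (ι y)).range := by
  have : CompleteSpace X := FiniteDimensional.complete ℝ X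
  have hk0 : (k : WithTop ℕ∞) ≠ 0 := by exact_mod_cast (by omega : k ≠ 0)
  have hkt : (k : WithTop ℕ∞) ≠ ((⊤ : ℕ∞) : WithTop ℕ∞) := by simp
  set T := fderiv ℝ f x0 with hT
  obtain ⟨π, hπ⟩ := exists_proj T.range
  obtain ⟨q, hq⟩ := exists_proj T.ker
  have hπT : ∀ v, (π (T v) : F) = T v := fun v => congrArg Subtype.val (hπ ⟨T v, v, rfl⟩)
  set Φ : X → T.range × T.ker := fun x => (π (f x), q (x - x0)) with hΦ
  have hL : Function.Injective ((π.comp T).prod q) := by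
    rw [injective_iff_map_eq_zero]
    intro v hv
    simp only [ContinuousLinearMap.prod_apply, ContinuousLinearMap.comp_apply, Prod.mk_eq_zero] at hv
    have h1 : T v = 0 := by rw [← hπT v, hv.1]; rfl
    have h2 := hq ⟨v, h1⟩
    exact (congrArg Subtype.val (h2.symm.trans hv.2))
  have hdim : finrank ℝ X = finrank ℝ (T.range × T.ker) := by
    rw [finrank_prod, T.toLinearMap.finrank_range_add_finrank_ker]
  let L := (LinearMap.linearEquivOfInjective ((π.comp T).prod q).toLinearMap hL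
    hdim).toContinuousLinearEquiv
  have hΦc : ContDiffAt ℝ k Φ x0 :=
    (π.contDiff.contDiffAt.comp x0 hf).prodMk
      (q.contDiff.contDiffAt.comp x0 (contDiffAt_id.sub contDiffAt_const))
  have hΦd : HasFDerivAt Φ (L : X →L[ℝ] T.range × T.ker) x0 := by
    have := (π.hasFDerivAt.comp x0 (hf.differentiableAt hk0).hasFDerivAt).prodMk
      (q.hasFDerivAt.comp x0 ((hasFDerivAt_id x0).sub_const x0))
    exact this
  set ψ := hΦc.localInverse hΦd hk0 with hψ
  have hψc : ContDiffAt ℝ k ψ (Φ x0) := hΦc.to_localInverse hΦd hk0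
  have hψ0 : ψ (Φ x0) = x0 := hΦc.localInverse_apply_image hΦd hk0
  have hR : ∀ᶠ p in 𝓝 (Φ x0), Φ (ψ p) = p :=
    (hΦc.hasStrictFDerivAt' hΦd hk0).eventually_right_inverse
  have hLf : ∀ᶠ x in 𝓝 x0, ψ (Φ x) = x :=
    (hΦc.hasStrictFDerivAt' hΦd hk0).eventually_left_inverse
  have hΦ0 : Φ x0 = (π (f x0), 0) := by simp [hΦ]
  have ht : Tendsto ψ (𝓝 (Φ x0)) (𝓝 x0) := by
    have := hψc.continuousAt.tendsto
    rwa [hψ0] at this
  set g := f ∘ ψ with hg
  have hev : ∀ᶠ p in 𝓝 (Φ x0), ContDiffAt ℝ k ψ p ∧ DifferentiableAt ℝ f (ψ p) ∧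
      (∀ᶠ p' in 𝓝 p, Φ (ψ p') = p') ∧ ∀ b, fderiv ℝ g p (0, b) = 0 := by
    filter_upwards [hψc.eventually hkt, ht.eventually (hf.eventually hkt), ht.eventually hr,
      hR.eventually_nhds] with p h1 h2 h3 h4
    refine ⟨h1, h2.differentiableAt hk0, h4, fun b => ?_⟩
    have dg := (h2.differentiableAt hk0).hasFDerivAt.comp p (h1.differentiableAt hk0).hasFDerivAt
    have e1 : (fun p => π (g p)) =ᶠ[𝓝 p] Prod.fst := h4.mono fun p' h => congrArg Prod.fst h
    have e2 := ((π.hasFDerivAt.comp p dg).congr_of_eventuallyEq e1.symm).unique hasFDerivAt_fst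
    rw [dg.fderiv]
    refine inj_on_range ((fderiv ℝ f (ψ p)).comp (fderiv ℝ ψ p)).toLinearMap π.toLinearMap
      (fun a => ⟨(a, 0), congrArg (fun L => L (a, 0)) e2⟩) (le_trans (Submodule.finrank_mono ?_) h3)
      (congrArg (fun L => L (0, b)) e2)
    rintro _ ⟨v, rfl⟩
    exact ⟨_, rfl⟩
  obtain ⟨ε, hε, hB⟩ := Metric.eventually_nhds_iff_ball.1 hev
  rw [hΦ0, ← ball_prod_same] at hB
  have hgd : ∀ p ∈ Metric.ball (π (f x0)) ε ×ˢ Metric.ball (0 : T.ker) ε,
      DifferentiableAt ℝ g p := fun p hp =>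
    (hB p hp).2.1.comp p ((hB p hp).1.differentiableAt hk0)
  have hc : ∀ p ∈ Metric.ball (π (f x0)) ε ×ˢ Metric.ball (0 : T.ker) ε, g p = g (p.1, 0) := by
    rintro ⟨a, b⟩ ⟨ha, hb⟩
    refine Metric.isOpen_ball.is_const_of_fderiv_eq_zero (𝕜 := ℝ) (f := fun b => g (a, b))
      (convex_ball _ _).isPreconnected (fun b hb => ?_) (fun b hb => ?_) hb (Metric.mem_ball_self hε)
    · exact ((hgd (a, b) ⟨ha, hb⟩).comp b (hasFDerivAt_prodMk_right a b).differentiableAt).differentiableWithinAt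
    · have := (hgd (a, b) ⟨ha, hb⟩).hasFDerivAt.comp b (hasFDerivAt_prodMk_right a b)
      rw [show fderiv ℝ (fun b => g (a, b)) b = _ from this.fderiv]
      ext v
      simpa using (hB (a, b) ⟨ha, hb⟩).2.2.2 v
  have h00 : ψ (π (f x0), 0) = x0 := hΦ0 ▸ hψ0
  refine ⟨fun y => ψ (π (f x0), y), h00, ?_⟩
  filter_upwards [Metric.ball_mem_nhds 0 hε] with y hy
  have hp : (π (f x0), y) ∈ Metric.ball (π (f x0)) ε ×ˢ Metric.ball (0 : T.ker) ε :=
    ⟨Metric.mem_ball_self hε, hy⟩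
  have hp0 : (π (f x0), 0) ∈ Metric.ball (π (f x0)) ε ×ˢ Metric.ball (0 : T.ker) ε :=
    ⟨Metric.mem_ball_self hε, Metric.mem_ball_self hε⟩
  have hι : ContDiffAt ℝ k (fun y => ψ (π (f x0), y)) y :=
    (hB _ hp).1.comp y (contDiffAt_const.prodMk contDiffAt_id)
  refine ⟨hι, ?_, ?_, ?_⟩
  · have c : Tendsto (fun z : T.ker => (π (f x0), z)) (𝓝 y) (𝓝 (π (f x0), y)) :=
      (continuous_const.prodMk continuous_id).tendsto _
    have e1 : (fun z => q (ψ (π (f x0), z) - x0)) =ᶠ[𝓝 y] id :=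
      (c.eventually (hB _ hp).2.2.1).mono fun z h => congrArg Prod.snd h
    have e2 := ((q.hasFDerivAt.comp y ((hι.differentiableAt hk0).hasFDerivAt.sub_const
      x0)).congr_of_eventuallyEq e1.symm).unique (hasFDerivAt_id y)
    exact Function.LeftInverse.injective (g := q) fun v => congrArg (fun L => L v) e2
  · exact (hc _ hp).trans (congrArg f h00)
  · rintro _ ⟨v, rfl⟩
    have e1 : g =ᶠ[𝓝 (π (f x0), y)] fun p => g (p.1, 0) :=
      mem_of_superset ((Metric.isOpen_ball.prod Metric.isOpen_ball).mem_nhds hp) hc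
    have d0 := (hgd _ hp0).hasFDerivAt
    have d1 := (HasFDerivAt.comp (π (f x0), y) (f := fun p : T.range × T.ker => (p.1, (0 : T.ker)))
      d0 (hasFDerivAt_fst.prodMk (hasFDerivAt_const _ _))).congr_of_eventuallyEq e1
    have d2 := (hB _ hp).2.1.hasFDerivAt.comp _ ((hB _ hp).1.differentiableAt hk0).hasFDerivAt
    have e2 : f =ᶠ[𝓝 x0] g ∘ Φ := hLf.mono fun x hx => by simp [hg, hx]
    have d3 := ((hΦ0 ▸ d0).comp x0 hΦd).congr_of_eventuallyEq e2
    refine ⟨fderiv ℝ ψ (π (f x0), y) (π (T v), 0), ?_⟩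
    have e3 := congrArg (fun L => L (π (T v), 0)) (d2.unique d1)
    have e4 := congrArg (fun L => L v) d3.fderiv
    have e5 : L v = (π (T v), 0) + (0, q v) := by simp [L]
    simp only [ContinuousLinearMap.comp_apply, ContinuousLinearEquiv.coe_coe, e5, map_add, hΦ0,
      (hB _ hp0).2.2.2, add_zero] at e4
    exact e3.trans (by simpa using e4.symm)

lemma ev_rank {P : Type*} [TopologicalSpace P] {L : P → X →L[ℝ] F} {p : P}
    (hL : ContinuousAt L p) : ∀ᶠ q in 𝓝 p, finrank ℝ (L q).ker ≤ finrank ℝ (L p).ker := by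
  have h := (isOpen_setOfPred_nat_le_rank (𝕜 := ℝ) (E := X) (F := F)
    (finrank ℝ (L p).range)).mem_nhds (x := L p) (by simp [LinearMap.rank])
  filter_upwards [hL h] with q hq
  have h1 : finrank ℝ (L p).range ≤ finrank ℝ (L q).range := by
    simp only [mem_preimage, mem_ofPred_eq, LinearMap.rank] at hq
    rw [← finrank_eq_rank ℝ (L q).range] at hq
    exact_mod_cast hq
  have e1 := (L p).toLinearMap.finrank_range_add_finrank_ker
  have e2 := (L q).toLinearMap.finrank_range_add_finrank_ker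
  omega

lemma exists_ann {W h : Submodule ℝ F} (hW : W ≤ h) :
    ∃ (c : ℕ) (j : (Fin c → ℝ) →L[ℝ] F →L[ℝ] ℝ), c + finrank ℝ W = finrank ℝ h ∧
      (∀ ξ, ∀ w ∈ W, j ξ w = 0) ∧ ∀ ξ, (∀ v ∈ h, j ξ v = 0) → ξ = 0 := by
  obtain ⟨H, hH⟩ := h.exists_isCompl
  let Ξ := (W ⊔ H).dualAnnihilator
  have : Module.Free ℝ Ξ := Module.Free.of_divisionRing ℝ Ξ
  let e := (Module.finBasis ℝ Ξ).equivFun.symm
  refine ⟨finrank ℝ Ξ, LinearMap.toContinuousLinearMap
    (LinearMap.toContinuousLinearMap.toLinearMap ∘ₗ Ξ.subtype ∘ₗ e.toLinearMap), ?_, ?_, ?_⟩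
  · have e1 := Subspace.finrank_add_finrank_dualAnnihilator_eq (W ⊔ H)
    have e2 := Submodule.finrank_sup_add_finrank_inf_eq W H
    have e3 := Submodule.finrank_add_eq_of_isCompl hH
    rw [(hH.disjoint.mono_left hW).eq_bot, finrank_bot] at e2
    simp only [Ξ]
    omega
  · intro ξ w hw
    exact (Submodule.mem_dualAnnihilator _).1 (e ξ).2 w (Submodule.mem_sup_left hw)
  · intro ξ hξ
    rw [← e.map_eq_zero_iff]
    ext v
    obtain ⟨a, ha, b, hb, rfl⟩ := Submodule.mem_sup.1 (hH.codisjoint.eq_top ▸ Submodule.mem_top :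
      v ∈ h ⊔ H)
    have h1 : (e ξ).1 a = 0 := hξ a ha
    have h2 : (e ξ).1 b = 0 :=
      (Submodule.mem_dualAnnihilator _).1 (e ξ).2 b (Submodule.mem_sup_right hb)
    simp [h1, h2]

/-- smooth frame of the annihilator of a family of subspaces of locally maximal dimension -/
lemma exists_frame {P : Type*} [NormedAddCommGroup P] [NormedSpace ℝ P] {k : ℕ}
    {θ : P → X →L[ℝ] F} {x0 : P} {h : Submodule ℝ F} (hθ : ContDiffAt ℝ k θ x0)
    (hh : ∀ᶠ x in 𝓝 x0, (θ x).range ≤ h)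
    (hr : ∀ᶠ x in 𝓝 x0, finrank ℝ (θ x).range ≤ finrank ℝ (θ x0).range) :
    ∃ (c : ℕ) (Λ : P → (Fin c → ℝ) →L[ℝ] F →L[ℝ] ℝ), c + finrank ℝ (θ x0).range = finrank ℝ h ∧
      ∀ᶠ x in 𝓝 x0, ContDiffAt ℝ k Λ x ∧ (∀ ξ y, Λ x ξ (θ x y) = 0) ∧
        ∀ ξ, (∀ v ∈ h, Λ x ξ v = 0) → ξ = 0 := by
  have : CompleteSpace F := FiniteDimensional.complete ℝ F
  have hkt : (k : WithTop ℕ∞) ≠ ((⊤ : ℕ∞) : WithTop ℕ∞) := by simp
  obtain ⟨c, j, hc, hj, hj'⟩ := exists_ann hh.self_of_nhds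
  obtain ⟨π, hπ⟩ := exists_proj (θ x0).range
  obtain ⟨s0, hs0⟩ := (θ x0).toLinearMap.rangeRestrict.exists_rightInverse_of_surjective
    (LinearMap.range_rangeRestrict _)
  let s : F →L[ℝ] X := (LinearMap.toContinuousLinearMap s0).comp π
  have hs : ∀ w ∈ (θ x0).range, θ x0 (s w) = w := fun w hw => by
    have h1 : s w = s0 ⟨w, hw⟩ := congrArg s0 (hπ ⟨w, hw⟩)
    rw [h1]
    exact congrArg Subtype.val (LinearMap.congr_fun hs0 ⟨w, hw⟩)
  let T : P → F →L[ℝ] F := fun x => ContinuousLinearMap.id ℝ F + (θ x - θ x0).comp s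
  have hT : ContDiffAt ℝ k T x0 :=
    contDiffAt_const.add ((hθ.sub contDiffAt_const).clm_comp contDiffAt_const)
  have hT0 : Function.Injective (T x0) := fun a b => by simp [T]
  refine ⟨c, fun x => ((ContinuousLinearMap.compL ℝ F F ℝ).flip (T x).inverse).comp j, hc, ?_⟩
  filter_upwards [hh, hr, hT.eventually hkt,
    hT.continuousAt (ContinuousLinearMap.isOpen_injective.mem_nhds hT0)] with x h1 h2 h3 h4
  have hi : (T x).IsInvertible :=
    ⟨(LinearMap.linearEquivOfInjective (T x).toLinearMap h4 rfl).toContinuousLinearEquiv, rfl⟩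
  have hs1 : ContDiffAt ℝ k (fun x => (T x).inverse) x := hi.contDiffAt_map_inverse.comp x h3
  have hs2 : ContDiffAt ℝ k (fun x => (ContinuousLinearMap.compL ℝ F F ℝ).flip (T x).inverse) x :=
    contDiffAt_const.clm_apply hs1
  refine ⟨hs2.clm_comp contDiffAt_const, fun ξ y => ?_,
    fun ξ hξ => hj' ξ fun v hv => ?_⟩
  · have e : (θ x0).range.map (T x).toLinearMap = (θ x).range := by
      refine Submodule.eq_of_le_of_finrank_le ?_ ?_
      · rintro _ ⟨w, hw, rfl⟩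
        exact ⟨s w, by simp [T, hs w hw]⟩
      · rwa [← (Submodule.equivMapOfInjective (T x).toLinearMap h4 _).finrank_eq]
    obtain ⟨w, hw, e'⟩ : θ x y ∈ (θ x0).range.map (T x).toLinearMap := e ▸ ⟨y, rfl⟩
    have : (T x).inverse (θ x y) = w := by rw [← e']; exact hi.inverse_apply_self w
    simpa [this] using hj ξ w hw
  · have : T x v ∈ h := h.add_mem hv (h.sub_mem (h1 ⟨_, rfl⟩) (hh.self_of_nhds ⟨_, rfl⟩))
    simpa [hi.inverse_apply_self] using hξ _ this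

end Pool.Agent.Lib.MP_1ece31_lc
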