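import Pool.Agent.Lib.MP_1ece31_lc.BarBase
import Pool.Agent.Lib.MP_1ece31_lc.BarBr
import Pool.Agent.Lib.MP_1ece31_lc.BarAlg

set_option linter.unusedSectionVars false

namespace Pool.Agent.Lib.MP_1ece31_lc

open Filter Set Topology Module
open scoped Manifold ContDiff

variable {E : Type*} [NormedAddCommGroup E] [NormedSpace ℝ E] [FiniteDimensional ℝ E]
  {G : Type*} [Group G] [TopologicalSpace G] [ChartedSpace E G] [LieGroup 𝓘(ℝ, E) ∞ G]

lemma generic_rank {V W : Type*} [AddCommGroup V] [Module ℝ V] [FiniteDimensional ℝ V]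
    [AddCommGroup W] [Module ℝ W] (T : E →ₗ[ℝ] V →ₗ[ℝ] W) {x0 : E} {r : ℕ}
    (h : ∀ᶠ x in 𝓝 x0, r ≤ finrank ℝ (T x).ker) (x1 : E) : r ≤ finrank ℝ (T x1).ker := by
  obtain ⟨V', hV⟩ := (T x1).ker.exists_isCompl
  obtain ⟨p, hp⟩ := ((T x1).domRestrict V').exists_leftInverse_of_injective (by
    rw [LinearMap.ker_domRestrict, eq_bot_iff]
    intro v hv
    exact Subtype.ext ((Submodule.disjoint_def.1 hV.disjoint) _ hv v.2))
  let B : Module.End ℝ V' := p ∘ₗ (T x0).domRestrict V'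
  have c : Tendsto (fun t : ℝ => x0 - t • x1) (𝓝 0) (𝓝 x0) := by
    have : Continuous fun t : ℝ => x0 - t • x1 := by fun_prop
    simpa using this.tendsto 0
  obtain ⟨t, h1, h2⟩ := (B.finite_hasEigenvalue.countable.dense_compl ℝ).inter_nhds_nonempty
    (c.eventually h)
  have h3 : (T (x0 - t • x1)).ker ⊓ V' = ⊥ := by
    rw [eq_bot_iff]
    rintro v ⟨hv, hv'⟩
    by_contra hne
    refine h1 (Module.End.hasEigenvalue_of_hasEigenvector (x := ⟨v, hv'⟩) ⟨?_, fun e => hne ?_⟩)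
    · rw [Module.End.mem_eigenspace_iff]
      have e1 : T x0 v = t • T x1 v := by simpa [sub_eq_zero] using hv
      have e2 : p (T x1 v) = ⟨v, hv'⟩ := LinearMap.congr_fun hp ⟨v, hv'⟩
      change p (T x0 v) = _
      rw [e1, map_smul, e2]
    · exact congrArg Subtype.val e
  have e1 := Submodule.finrank_sup_add_finrank_inf_eq (T (x0 - t • x1)).ker V'
  have e2 := Submodule.finrank_add_eq_of_isCompl hV
  have e3 := Submodule.finrank_le ((T (x0 - t • x1)).ker ⊔ V')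
  rw [h3, finrank_bot] at e1
  have h2 : r ≤ finrank ℝ (T (x0 - t • x1)).ker := h2
  omega

lemma red_open (H : Submodule ℝ E) {x0 : E} (hx : x0 ∈ H)
    (h2 : ∀ y, ∃ u, ∃ h ∈ H, y = ad E G u x0 + h) :
    ∀ᶠ x in 𝓝 x0, ∃ g : G, ∃ h ∈ H, Ad E g h = x := by
  have : CompleteSpace E := FiniteDimensional.complete ℝ E
  have : CompleteSpace H := FiniteDimensional.complete ℝ H
  have hs : ∀ k, Sm E k (fun p : E × H => ci G p.1) (o E G, ⟨x0, hx⟩) := fun k =>
    sm_ci_o.comp (f := Prod.fst) (y := (o E G, (⟨x0, hx⟩ : H))) contDiffAt_fst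
  let j := H.subtypeL.comp (ContinuousLinearMap.snd ℝ E H)
  have d := ((hs 2).Ad0.clm_apply j.contDiff.contDiffAt).hasStrictFDerivAt'
    ((hasFD_Ad (hs 1)).clm_apply j.hasFDerivAt) (by simp)
  have e := d.map_nhds_eq_of_surj (by
    rw [eq_top_iff]
    intro y _
    obtain ⟨u, h, hh, rfl⟩ := h2 y
    refine ⟨(u, ⟨h, hh⟩), ?_⟩
    rw [th_comp (f := Prod.fst) (y := (o E G, (⟨x0, hx⟩ : H))) sm_ci_o differentiableAt_fst]
    simp [j, th_ci, fderiv_fst, add_comm])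
  have e' : Ad E (ci G (o E G)) x0 = x0 := by simp
  rw [← e']
  refine e.ge (mem_of_superset range_mem_map ?_)
  rintro _ ⟨p, rfl⟩
  exact ⟨_, _, p.2.2, rfl⟩

lemma red_index [LieGroup 𝓘(ℝ, E) (minSmoothness ℝ 3) G] [CompleteSpace E]
    [LieAlgebra.HasCentralRadical ℝ (GroupLieAlgebra 𝓘(ℝ, E) G)]
    (H : LieSubalgebra ℝ (GroupLieAlgebra 𝓘(ℝ, E) G)) [H.IsCartanSubalgebra] (μ : E →L[ℝ] ℝ) :
    finrank ℝ H ≤ finrank ℝ (orth ⊤ ⊤ (om G μ)) := by
  have : FiniteDimensional ℝ (GroupLieAlgebra 𝓘(ℝ, E) G) := inferInstanceAs (FiniteDimensional ℝ E)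
  obtain ⟨h1, h2⟩ := red_alg H
  obtain ⟨x0, hx, h3⟩ := exists_reg H
  obtain ⟨x, h1⟩ := h1 μ.toLinearMap
  simp only [bracket_eq] at h1 h2 h3
  let H' : Submodule ℝ E := H.toSubmodule
  let T := (ad E G).toLinearMap₁₂.compr₂ (ad E G).flip.toLinearMap
  have hT : ∀ x a, a ∈ (T x).ker ↔ ∀ b, ad E G b (ad E G x a) = 0 := fun x a =>
    ContinuousLinearMap.ext_iff
  have := generic_rank T (r := finrank ℝ H') ((red_open H' hx h3).mono ?_) x
  · exact this.trans (Submodule.finrank_mono fun a ha => ⟨trivial, fun b _ => h1 a ((hT _ _).1 ha) b⟩)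
  rintro _ ⟨g, h, hh, rfl⟩
  rw [(Submodule.equivMapOfInjective (Ad E g).toLinearMap
    (Function.LeftInverse.injective (Ad_inv_Ad g)) H').finrank_eq]
  refine Submodule.finrank_mono ?_
  rintro _ ⟨a, ha, rfl⟩
  refine (hT _ _).2 fun b => ?_
  rw [← Ad_Ad_inv g b, ContinuousLinearMap.coe_coe, ← Ad_ad, ← Ad_ad, h2 h hh a ha]
  exact map_zero _

end Pool.Agent.Lib.MP_1ece31_lc
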