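import Pool.Agent.Lib.MP_1ece31_lc.Defs
import Pool.Agent.Lib.MP_1ece31_lc.BarMain
import Pool.Agent.Lib.MP_1ece31_lc.BarRed

set_option linter.unusedSectionVars false

namespace Pool.Agent.Lib.MP_1ece31_lc

open Filter Set Topology Module
open scoped Manifold ContDiff

variable {E : Type*} [NormedAddCommGroup E] [NormedSpace ℝ E] [FiniteDimensional ℝ E]
  {G : Type*} [Group G] [TopologicalSpace G] [ChartedSpace E G] [LieGroup 𝓘(ℝ, E) ∞ G]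

lemma IsSubmanifold.param {M : Set G} {m : ℕ} (h : IsSubmanifold E M m) (k : ℕ) :
    ∃ (V : Submodule ℝ E) (D : Set V) (γ : V → G), finrank ℝ V = m ∧ IsOpen D ∧ D.Nonempty ∧
      InjOn γ D ∧ ∀ x ∈ D, γ x ∈ M ∧ Sm E k γ x := by
  obtain ⟨⟨p, hp⟩, h⟩ := h
  obtain ⟨φ, hφ, hs, V, hV, h⟩ := h p hp
  refine ⟨V, Subtype.val ⁻¹' φ.target, fun v => φ.symm v, hV,
    φ.open_target.preimage continuous_subtype_val, ⟨⟨φ p, (h p hs).1 hp⟩, φ.map_source hs⟩,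
    fun x hx y hy e => Subtype.ext (φ.symm.injOn hx hy e), fun x hx => ⟨?_, ?_⟩⟩
  · rw [h _ (φ.map_target hx), φ.right_inv hx]
    exact x.2
  · exact Sm.comp (A := φ.symm) (f := V.subtypeL)
      ((contMDiffAt_symm_of_mem_maximalAtlas hφ hx).of_le (by exact_mod_cast le_top))
      V.subtypeL.contDiff.contDiffAt

theorem tpp_bound {M₁ M₂ M₃ : Set G} {m₁ m₂ m₃ r : ℕ} (h₁ : IsSubmanifold E M₁ m₁)
    (h₂ : IsSubmanifold E M₂ m₂) (h₃ : IsSubmanifold E M₃ m₃) (h : TPP M₁ M₂ M₃)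
    (hr : ∀ μ, r ≤ finrank ℝ (orth ⊤ ⊤ (om G μ) : Submodule ℝ E)) :
    2 * (m₁ + m₂ + m₃) + r ≤ 3 * finrank ℝ E := by
  set k := finrank ℝ E + 1
  obtain ⟨V1, D1, s, rfl, o1, n1, i1, H1⟩ := h₁.param (k + 1)
  obtain ⟨V2, D2, t, rfl, o2, n2, i2, H2⟩ := h₂.param (k + 1)
  obtain ⟨V3, D3, u, rfl, o3, n3, i3, H3⟩ := h₃.param (k + 1)
  have hr' := (hr 0).trans (Submodule.finrank_le _)
  have := claim (E := E) (G := G) k ⊤ ⊤ (V1 × V2 × V3) (D1 ×ˢ D2 ×ˢ D3)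
    (fun x => (s x.1)⁻¹ * t x.2.1) (fun x => (s x.1)⁻¹ * u x.2.2) id (finrank ℝ E - r)
    (by simp [k]) (fun _ _ _ _ => trivial) le_rfl (n1.prod (n2.prod n3))
    ⟨o1.prod (o2.prod o3),
      fun x hx => ((H1 _ hx.1).2.comp contDiffAt_fst).inv.mul
        ((H2 _ hx.2.1).2.comp (f := fun x : V1 × V2 × V3 => x.2.1) contDiffAt_snd.fst),
      fun x hx => ((H1 _ hx.1).2.comp contDiffAt_fst).inv.mul
        ((H3 _ hx.2.2).2.comp (f := fun x : V1 × V2 × V3 => x.2.2) contDiffAt_snd.snd),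
      fun _ _ _ => by simp, fun _ _ _ => by simp, fun _ _ _ => trivial, fun _ _ _ => trivial,
      fun _ _ => differentiableAt_id, fun x hx y hy z hz e => ?_⟩
    (fun x _ => by rw [fderiv_id]; exact fun _ _ h => h) fun μ => ?_
  · simp only [finrank_prod, finrank_top] at this
    omega
  · obtain ⟨e1, e2, e3⟩ := h _ ⟨_, (H1 _ hz.1).1, _, (H1 _ hx.1).1, rfl⟩
      _ ⟨_, (H2 _ hx.2.1).1, _, (H2 _ hy.2.1).1, rfl⟩ _ ⟨_, (H3 _ hy.2.2).1, _, (H3 _ hz.2.2).1, rfl⟩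
      (by
        have := congrArg (fun g => s z.1 * g * (s z.1)⁻¹) e
        simpa [mul_assoc] using this)
    exact ⟨(i1 hz.1 hx.1 (mul_inv_eq_one.1 e1)).symm, i2 hx.2.1 hy.2.1 (mul_inv_eq_one.1 e2),
      i3 hy.2.2 hz.2.2 (mul_inv_eq_one.1 e3)⟩
  · have := hr μ
    rw [finrank_top]
    omega

theorem three_le {r : ℕ} (hr : ∀ μ, r ≤ finrank ℝ (orth ⊤ ⊤ (om G μ) : Submodule ℝ E)) :
    3 ≤ lieExponent E G r := by
  refine le_sInf ?_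
  rintro _ ⟨M₁, M₂, M₃, m₁, m₂, m₃, h₁, h₂, h₃, h, hp, rfl⟩
  have : ((2 * (m₁ + m₂ + m₃) + r : ℕ) : ℝ) ≤ (3 * finrank ℝ E : ℕ) := by
    exact_mod_cast tpp_bound h₁ h₂ h₃ h hr
  push_cast at this
  have e : (3 : EReal) = ((3 : ℝ) : EReal) := rfl
  rw [e, EReal.coe_le_coe_iff, le_div_iff₀ (sub_pos.2 hp)]
  linarith

theorem barrier [CompleteSpace E] [LieGroup 𝓘(ℝ, E) (minSmoothness ℝ 3) G] (r : ℕ)
    (hr : r ≤ lieIndex (GroupLieAlgebra 𝓘(ℝ, E) G) ∨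
      (LieAlgebra.HasCentralRadical ℝ (GroupLieAlgebra 𝓘(ℝ, E) G) ∧ IsRank E G r)) :
    3 ≤ lieExponent E G r := by
  refine three_le fun μ => ?_
  rcases hr with hr | ⟨_, H, _, rfl⟩
  · refine hr.trans ((ciInf_le (OrderBot.bddBelow _) μ.toLinearMap).trans ?_)
    have : Submodule.span ℝ {x : E | ∀ y : E, μ (ad E G x y) = 0} ≤ orth ⊤ ⊤ (om G μ) :=
      Submodule.span_le.2 fun x hx => ⟨trivial, fun y _ => hx y⟩
    have := Submodule.finrank_mono this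
    simp only [bracket_eq]
    exact this
  · exact red_index H μ

end Pool.Agent.Lib.MP_1ece31_lc
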