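import Mathlib

namespace Pool.Agent.Lib.MP_1ece31_lc

open scoped Manifold ContDiff

/-- Q(X) = { x y⁻¹ : x, y in X } -/
def Q {G : Type*} [Group G] (X : Set G) : Set G := {g | ∃ x ∈ X, ∃ y ∈ X, g = x * y⁻¹}

/-- the triple product property -/
def TPP {G : Type*} [Group G] (S T U : Set G) : Prop :=
  ∀ s ∈ Q S, ∀ t ∈ Q T, ∀ u ∈ Q U, s * t * u = 1 → s = 1 ∧ t = 1 ∧ u = 1

/-- M is a nonempty embedded smooth submanifold of dimension m of the manifold G modelled on E: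
around each point of M some smooth chart of G sends M onto an m-dimensional linear slice -/
def IsSubmanifold (E : Type*) [NormedAddCommGroup E] [NormedSpace ℝ E] {G : Type*}
    [TopologicalSpace G] [ChartedSpace E G] (M : Set G) (m : ℕ) : Prop :=
  M.Nonempty ∧ ∀ p ∈ M, ∃ φ ∈ IsManifold.maximalAtlas 𝓘(ℝ, E) ∞ G, p ∈ φ.source ∧
    ∃ V : Submodule ℝ E, Module.finrank ℝ V = m ∧ ∀ q ∈ φ.source, (q ∈ M ↔ φ q ∈ V)

/-- the Lie exponent of G (modelled on E, so dim G = dim E) computed with r as the rank -/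
noncomputable def lieExponent (E : Type*) [NormedAddCommGroup E] [NormedSpace ℝ E] (G : Type*)
    [Group G] [TopologicalSpace G] [ChartedSpace E G] (r : ℕ) : EReal :=
  sInf {w | ∃ (M₁ M₂ M₃ : Set G) (m₁ m₂ m₃ : ℕ), IsSubmanifold E M₁ m₁ ∧ IsSubmanifold E M₂ m₂ ∧
    IsSubmanifold E M₃ m₃ ∧ TPP M₁ M₂ M₃ ∧
    ((Module.finrank ℝ E : ℝ) - r) / 2 < ((m₁ : ℝ) + m₂ + m₃) / 3 ∧
    w = (((r : ℝ) / (((m₁ : ℝ) + m₂ + m₃) / 3 - ((Module.finrank ℝ E : ℝ) - r) / 2) : ℝ) : EReal)}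

/-- r is the dimension of a Cartan subalgebra of the Lie algebra of G -/
def IsRank (E : Type*) [NormedAddCommGroup E] [NormedSpace ℝ E] [CompleteSpace E] (G : Type*)
    [Group G] [TopologicalSpace G] [ChartedSpace E G] [LieGroup 𝓘(ℝ, E) (minSmoothness ℝ 3) G]
    (r : ℕ) : Prop :=
  ∃ H : LieSubalgebra ℝ (GroupLieAlgebra 𝓘(ℝ, E) G), H.IsCartanSubalgebra ∧ Module.finrank ℝ H = r

/-- the index of a real Lie algebra: the least dimension of the stabiliser of a linear form -/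
noncomputable def lieIndex (L : Type*) [LieRing L] [LieAlgebra ℝ L] : ℕ :=
  ⨅ μ : Module.Dual ℝ L, Set.finrank ℝ {x : L | ∀ y : L, μ ⁅x, y⁆ = 0}

end Pool.Agent.Lib.MP_1ece31_lc
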