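import Pool.Agent.Lib.MP_1ece31_lc.Defs
import Pool.Agent.Lib.MP_1ece31_lc.BarBr

set_option linter.unusedSectionVars false

namespace Pool.Agent.Lib.MP_1ece31_lc

open Filter Set Topology Module
open scoped Manifold ContDiff

noncomputable section

/-- the model space -/
abbrev Md (n : ℕ) : Type := (Fin n → ℝ) × (Fin n → ℝ) × ℝ

/-- the Heisenberg group -/
def Heis (n : ℕ) : Type := Md n

variable {n : ℕ}

/-- the product -/
def hmul (a b : Md n) : Md n := (a.1 + b.1, a.2.1 + b.2.1, a.2.2 + b.2.2 + a.1 ⬝ᵥ b.2.1)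

/-- the inverse -/
def hinv (a : Md n) : Md n := (-a.1, -a.2.1, -a.2.2 + a.1 ⬝ᵥ a.2.1)

instance : Group (Heis n) where
  mul := hmul
  one := (0 : Md n)
  inv := hinv
  mul_assoc a b c := by
    change hmul (hmul a b) c = hmul a (hmul b c)
    simp only [hmul, add_dotProduct, dotProduct_add, Prod.mk.injEq, add_assoc, true_and]
    ring
  one_mul a := by
    change hmul 0 a = a
    simp [hmul]
  mul_one a := by
    change hmul a 0 = a
    simp [hmul]
  inv_mul_cancel a := by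
    change hmul (hinv a) a = 0
    simp [hmul, hinv]

instance : TopologicalSpace (Heis n) := inferInstanceAs (TopologicalSpace (Md n))

instance : ChartedSpace (Md n) (Heis n) := chartedSpaceSelf (Md n)

lemma cd_dot {X : Type*} [NormedAddCommGroup X] [NormedSpace ℝ X] {k : WithTop ℕ∞}
    {f g : X → Fin n → ℝ} (hf : ContDiff ℝ k f) (hg : ContDiff ℝ k g) :
    ContDiff ℝ k fun x => f x ⬝ᵥ g x :=
  ContDiff.sum fun i _ => (contDiff_pi.1 hf i).mul (contDiff_pi.1 hg i)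

instance heisLie (k : WithTop ℕ∞) : LieGroup 𝓘(ℝ, Md n) k (Heis n) where
  __ : IsManifold 𝓘(ℝ, Md n) k (Heis n) := inferInstanceAs (IsManifold 𝓘(ℝ, Md n) k (Md n))
  contMDiff_mul := by
    have : ContDiff ℝ k fun p : Md n × Md n => hmul p.1 p.2 :=
      (contDiff_fst.fst.add contDiff_snd.fst).prodMk
        ((contDiff_fst.snd.fst.add contDiff_snd.snd.fst).prodMk
          ((contDiff_fst.snd.snd.add contDiff_snd.snd.snd).add
            (cd_dot contDiff_fst.fst contDiff_snd.snd.fst)))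
    have h1 : ContMDiff (𝓘(ℝ, Md n).prod 𝓘(ℝ, Md n)) 𝓘(ℝ, Md n) k (M' := Md n)
      fun p : Heis n × Heis n => p.1 := contMDiff_fst (M := Heis n) (N := Heis n)
    have h2 : ContMDiff (𝓘(ℝ, Md n).prod 𝓘(ℝ, Md n)) 𝓘(ℝ, Md n) k (M' := Md n)
      fun p : Heis n × Heis n => p.2 := contMDiff_snd (M := Heis n) (N := Heis n)
    exact this.comp_contMDiff (h1.prodMk_space h2)
  contMDiff_inv := by
    have : ContDiff ℝ k (hinv (n := n)) :=
      contDiff_fst.neg.prodMk (contDiff_snd.fst.neg.prodMk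
        (contDiff_snd.snd.neg.add (cd_dot contDiff_fst contDiff_snd.fst)))
    exact this.contMDiff

/-- the bracket -/
def hbr (n : ℕ) : Md n →L[ℝ] Md n →L[ℝ] Md n :=
  (LinearMap.mk₂ ℝ (fun a b : Md n => ((0, 0, a.1 ⬝ᵥ b.2.1 - b.1 ⬝ᵥ a.2.1) : Md n))
    (fun a b c => by simp; ring) (fun a b c => by simp; ring) (fun a b c => by simp; ring)
    (fun a b c => by simp; ring)).toContinuousBilinearMap

lemma hbr_apply (a b : Md n) : hbr n a b = (0, 0, a.1 ⬝ᵥ b.2.1 - b.1 ⬝ᵥ a.2.1) := rfl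

lemma heis_Ad (g : Md n) :
    Ad (G := Heis n) (Md n) g = ContinuousLinearMap.id ℝ (Md n) + hbr n g := by
  rw [← (ContinuousLinearMap.id ℝ (Md n) + hbr n g).fderiv (x := o (Md n) (Heis n)), Ad]
  congr 1
  ext1 v
  change hmul (hmul g v) (hinv g) = v + hbr n g v
  simp only [hmul, hinv, hbr_apply, add_dotProduct, dotProduct_neg]
  refine Prod.ext (by simp) (Prod.ext (by simp) ?_)
  simp only [Prod.snd_add]
  ring

lemma heis_ad : ad (Md n) (Heis n) = hbr n := by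
  rw [ad]
  have : (fun u : Md n => Ad (Md n) (ci (Heis n) u)) =
    fun u => ContinuousLinearMap.id ℝ (Md n) + hbr n u := funext fun u => heis_Ad u
  rw [this, fderiv_const_add, ContinuousLinearMap.fderiv]

lemma heis_cartan (H : LieSubalgebra ℝ (GroupLieAlgebra 𝓘(ℝ, Md n) (Heis n)))
    [H.IsCartanSubalgebra] : finrank ℝ H = finrank ℝ (Md n) := by
  have : FiniteDimensional ℝ (GroupLieAlgebra 𝓘(ℝ, Md n) (Heis n)) :=
    inferInstanceAs (FiniteDimensional ℝ (Md n))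
  have h : H.toSubmodule = ⊤ := by
    rw [eq_top_iff]
    intro x _
    change x ∈ H
    rw [← LieAlgebra.zeroRootSubalgebra_eq_of_is_cartan ℝ _ H, LieAlgebra.mem_zeroRootSubalgebra]
    refine fun y => ⟨2, ?_⟩
    change ⁅y.1, ⁅y.1, x⁆⁆ = 0
    rw [bracket_eq, bracket_eq, heis_ad, hbr_apply, hbr_apply]
    simp
    rfl
  change finrank ℝ H.toSubmodule = _
  rw [h, finrank_top]
  rfl

lemma sub_of_diffeo (f g : Md n → Md n) (hf : ContDiff ℝ ∞ f) (hg : ContDiff ℝ ∞ g)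
    (h1 : ∀ x, g (f x) = x) (h2 : ∀ x, f (g x) = x) :
    IsSubmanifold (G := Heis n) (Md n) {q | (f q).2 = 0} n := by
  let φ : Md n ≃ₜ Md n := ⟨⟨f, g, h1, h2⟩, hf.continuous, hg.continuous⟩
  refine ⟨⟨g 0, by simp [h2]⟩, fun p _ => ⟨φ.toOpenPartialHomeomorph, ?_, trivial,
    (LinearMap.snd ℝ _ _).ker, ?_, fun q _ => Iff.rfl⟩⟩
  · exact φ.toOpenPartialHomeomorph.mem_maximalAtlas_of_contMDiffOn (M := Md n)
      hf.contMDiff.contMDiffOn hg.contMDiff.contMDiffOn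
  · rw [LinearMap.ker_snd, LinearMap.finrank_range_of_inj LinearMap.inl_injective, finrank_fin_fun]

lemma heis_exp (hn : 0 < n) : lieExponent (Md n) (Heis n) (finrank ℝ (Md n)) ≤
    ((2 + 1 / n : ℝ) : EReal) := by
  have hn' : (0 : ℝ) < n := by exact_mod_cast hn
  refine sInf_le ⟨_, _, _, n, n, n, sub_of_diffeo id id contDiff_id contDiff_id
    (fun _ => rfl) (fun _ => rfl),
    sub_of_diffeo (fun a => (a.2.1, a.1, a.2.2)) (fun a => (a.2.1, a.1, a.2.2)) (by fun_prop)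
      (by fun_prop) (fun _ => rfl) (fun _ => rfl),
    sub_of_diffeo (fun a => (a.1, a.2.1 - a.1, a.2.2 - a.1 ⬝ᵥ a.1 / 2))
      (fun a => (a.1, a.2.1 + a.1, a.2.2 + a.1 ⬝ᵥ a.1 / 2))
      (contDiff_fst.prodMk ((contDiff_snd.fst.sub contDiff_fst).prodMk
        (contDiff_snd.snd.sub ((cd_dot contDiff_fst contDiff_fst).div_const _))))
      (contDiff_fst.prodMk ((contDiff_snd.fst.add contDiff_fst).prodMk
        (contDiff_snd.snd.add ((cd_dot contDiff_fst contDiff_fst).div_const _))))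
      (fun _ => by simp) (fun _ => by simp), ?_, by simp; linarith, ?_⟩
  · rintro _ ⟨⟨a, a2⟩, ha, ⟨a', a2'⟩, ha', rfl⟩ _ ⟨⟨b1, b, b3⟩, hb, ⟨b1', b', b3'⟩, hb', rfl⟩
      _ ⟨⟨c, c2, c3⟩, hc, ⟨c', c2', c3'⟩, hc', rfl⟩ e
    obtain rfl : a2 = 0 := ha
    obtain rfl : a2' = 0 := ha'
    obtain ⟨rfl, rfl⟩ : b1 = 0 ∧ b3 = 0 := Prod.mk_eq_zero.1 hb
    obtain ⟨rfl, rfl⟩ : b1' = 0 ∧ b3' = 0 := Prod.mk_eq_zero.1 hb'
    obtain ⟨rfl, rfl⟩ : c2 = c ∧ c3 = c ⬝ᵥ c / 2 := by simpa [sub_eq_zero] using hc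
    obtain ⟨rfl, rfl⟩ : c2' = c' ∧ c3' = c' ⬝ᵥ c' / 2 := by simpa [sub_eq_zero] using hc'
    have s1 : hmul (a, 0) (hinv (a', 0)) = (a - a', 0, 0) := by simp [hmul, hinv, sub_eq_add_neg]
    have s2 : hmul (0, b, 0) (hinv (0, b', 0)) = (0, b - b', 0) := by
      simp [hmul, hinv, sub_eq_add_neg]
    have s3 : hmul (c2, c2, c2 ⬝ᵥ c2 / 2) (hinv (c2', c2', c2' ⬝ᵥ c2' / 2)) =
        (c2 - c2', c2 - c2', (c2 - c2') ⬝ᵥ (c2 - c2') / 2) := by
      simp [hmul, hinv, sub_eq_add_neg, dotProduct_comm c2' c2]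
      ring
    change hmul (hmul (hmul _ (hinv _)) (hmul _ (hinv _))) (hmul _ (hinv _)) = 0 at e
    change hmul _ (hinv _) = 0 ∧ hmul _ (hinv _) = 0 ∧ hmul _ (hinv _) = 0
    rw [s1, s2, s3] at e ⊢
    generalize a - a' = x at *
    generalize b - b' = y at *
    generalize c2 - c2' = w at *
    simp only [hmul, add_zero, zero_add, Prod.mk_eq_zero] at e
    obtain ⟨e1, e2, e3⟩ := e
    obtain rfl := eq_neg_of_add_eq_zero_left e1
    obtain rfl := eq_neg_of_add_eq_zero_left e2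
    have : w = 0 := by simpa using e3
    simp [this]
  · congr 1
    simp only [finrank_prod, finrank_fin_fun, finrank_self]
    push_cast
    field_simp
    ring

theorem heis_main (c : ℝ) (hc : 2 < c) :
    ∃ (E : Type) (_ : NormedAddCommGroup E) (_ : NormedSpace ℝ E) (_ : FiniteDimensional ℝ E)
      (_ : CompleteSpace E) (G : Type) (_ : Group G) (_ : TopologicalSpace G) (_ : T2Space G)
      (_ : SecondCountableTopology G) (_ : ChartedSpace E G) (_ : LieGroup 𝓘(ℝ, E) ∞ G)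
      (_ : LieGroup 𝓘(ℝ, E) (minSmoothness ℝ 3) G), 0 < Module.finrank ℝ E ∧
      (∃ r, IsRank E G r) ∧ ∀ r, IsRank E G r → lieExponent E G r < c := by
  obtain ⟨n, hn⟩ := exists_nat_one_div_lt (sub_pos.2 hc)
  have : FiniteDimensional ℝ (GroupLieAlgebra 𝓘(ℝ, Md (n + 1)) (Heis (n + 1))) :=
    inferInstanceAs (FiniteDimensional ℝ (Md (n + 1)))
  refine ⟨Md (n + 1), inferInstance, inferInstance, inferInstance, inferInstance, Heis (n + 1),
    inferInstance, inferInstance, inferInstanceAs (T2Space (Md _)),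
    inferInstanceAs (SecondCountableTopology (Md _)), inferInstance, inferInstance, inferInstance,
    by simp, ?_, ?_⟩
  · obtain ⟨x, hx⟩ := LieAlgebra.exists_isCartanSubalgebra_engel ℝ
      (GroupLieAlgebra 𝓘(ℝ, Md (n + 1)) (Heis (n + 1)))
    exact ⟨_, _, hx, rfl⟩
  · rintro _ ⟨H, _, rfl⟩
    rw [heis_cartan H]
    refine (heis_exp n.succ_pos).trans_lt (EReal.coe_lt_coe_iff.2 ?_)
    push_cast
    linarith

end

end Pool.Agent.Lib.MP_1ece31_lc
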